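import Pool.Agent.MP_8260ef_al.Enum

set_option autoImplicit false

namespace Pool.Agent.MaxN

lemma E_primrec : Primrec E := by
  have h : Primrec (Nat.rec (motive := fun _ => ℕ) 1 (fun s e => 3 * ((s + 1) * e))) := by
    apply Primrec.nat_rec₁
    exact Primrec.nat_mul.comp₂ (Primrec₂.const 3)
      (Primrec.nat_mul.comp₂ (Primrec.succ.comp₂ Primrec₂.left) Primrec₂.right)
  refine h.of_eq fun n => ?_
  induction n with
  | zero => rfl
  | succ n ih =>
    simp only [E]
    rw [← ih]

lemma D_primrec : Primrec D :=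
  Primrec.nat_mul.comp Primrec.succ E_primrec

variable (k : ℕ → ℕ)

/-- predecessor test; `j` stands for the row `j = r + 1` -/
def PreB (j s : ℕ) : Prop := 1 ≤ j ∧ j ≤ s ∧ ∀ u < s + 1, j ≤ u → k (j - 1) < k u

instance (j s : ℕ) : Decidable (PreB k j s) := by unfold PreB; infer_instance

lemma PreB_iff (r s : ℕ) : PreB k (r + 1) s ↔ Pre k r s := by
  unfold PreB Pre
  simp only [Nat.add_sub_cancel]
  constructor
  · rintro ⟨_, h1, h2⟩
    exact ⟨by omega, fun u hu hus => h2 u (by omega) (by omega)⟩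
  · rintro ⟨h1, h2⟩
    exact ⟨by omega, by omega, fun u hu hus => h2 u (by omega) (by omega)⟩

lemma PreB_primrec {k : ℕ → ℕ} (hk : Primrec k) : PrimrecRel (PreB k) := by
  have hR : PrimrecRel (fun (u : ℕ) (j : ℕ) => j ≤ u → k (j - 1) < k u) := by
    have h1 : PrimrecPred (fun p : ℕ × ℕ => ¬ (p.2 ≤ p.1) ∨ k (p.2 - 1) < k p.1) := by
      apply PrimrecPred.or
      · exact (Primrec.nat_le.comp Primrec.snd Primrec.fst).not
      · exact Primrec.nat_lt.comp (hk.comp (Primrec.nat_sub.comp Primrec.snd (Primrec.const 1)))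
          (hk.comp Primrec.fst)
    refine PrimrecPred.primrecRel (p := fun p : ℕ × ℕ => p.2 ≤ p.1 → k (p.2 - 1) < k p.1) ?_
    refine h1.of_eq fun p => ?_
    rw [imp_iff_not_or]
  have h2 : PrimrecPred (fun p : ℕ × ℕ => ∀ u < p.2 + 1, p.1 ≤ u → k (p.1 - 1) < k u) :=
    (PrimrecRel.forall_lt hR).comp (Primrec.succ.comp Primrec.snd) Primrec.fst
  have h3 : PrimrecPred (fun p : ℕ × ℕ => 1 ≤ p.1 ∧ p.1 ≤ p.2 ∧
      ∀ u < p.2 + 1, p.1 ≤ u → k (p.1 - 1) < k u) := by
    apply PrimrecPred.and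
    · exact Primrec.nat_le.comp (Primrec.const 1) Primrec.fst
    · apply PrimrecPred.and
      · exact Primrec.nat_le.comp Primrec.fst Primrec.snd
      · exact h2
  exact h3.primrecRel

/-- one step of the decision procedure for marks -/
def stO (a : ℕ × ℕ) : ℕ × ℕ :=
  if a.1 = 0 then a else
    if a.2 / E (a.1 - 1) = 0 ∨ a.2 / E (a.1 - 1) = a.1 then (0, a.2 % E (a.1 - 1)) else
      if PreB k (a.2 / E (a.1 - 1)) (a.1 - 1) then
        (a.2 / E (a.1 - 1), a.2 % E (a.1 - 1)) else (0, 1)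

/-- decision procedure for marks -/
def onb (n x : ℕ) : Prop := ((stO k)^[n] (n, x)).2 = 0

instance (n x : ℕ) : Decidable (onb k n x) := by unfold onb; infer_instance

lemma stO_primrec {k : ℕ → ℕ} (hk : Primrec k) : Primrec (stO k) := by
  unfold stO
  have hE1 : Primrec (fun a : ℕ × ℕ => E (a.1 - 1)) :=
    E_primrec.comp (Primrec.nat_sub.comp Primrec.fst (Primrec.const 1))
  have hd : Primrec (fun a : ℕ × ℕ => a.2 / E (a.1 - 1)) :=
    Primrec.nat_div.comp Primrec.snd hE1
  have hm : Primrec (fun a : ℕ × ℕ => a.2 % E (a.1 - 1)) :=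
    Primrec.nat_mod.comp Primrec.snd hE1
  apply Primrec.ite
  · exact Primrec.eq.comp Primrec.fst (Primrec.const 0)
  · exact Primrec.id
  · apply Primrec.ite
    · apply PrimrecPred.or
      · exact Primrec.eq.comp hd (Primrec.const 0)
      · exact Primrec.eq.comp hd Primrec.fst
    · exact Primrec.pair (Primrec.const 0) hm
    · apply Primrec.ite
      · exact (PreB_primrec hk).comp hd (Primrec.nat_sub.comp Primrec.fst (Primrec.const 1))
      · exact Primrec.pair hd hm
      · exact Primrec.const (0, 1)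

lemma onb_primrec {k : ℕ → ℕ} (hk : Primrec k) : PrimrecRel (onb k) := by
  have h1 : Primrec (fun p : ℕ × ℕ => ((stO k)^[p.1] (p.1, p.2)).2) := by
    apply Primrec.snd.comp
    exact Primrec.nat_iterate Primrec.fst (Primrec.pair Primrec.fst Primrec.snd)
      ((stO_primrec hk).comp₂ Primrec₂.right)
  have h2 : PrimrecPred (fun p : ℕ × ℕ => ((stO k)^[p.1] (p.1, p.2)).2 = 0) :=
    Primrec.eq.comp h1 (Primrec.const 0)
  exact h2.primrecRel

lemma on_step (s x : ℕ) : On k (s + 1) (x : ℤ) ↔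
    ∃ m, Pc k s (x / E s) m ∧ On k m ((x % E s : ℕ) : ℤ) := by
  rw [on_succ]
  have hE : (0 : ℤ) < (E s : ℤ) := by exact_mod_cast E_pos s
  have hdm : (x : ℤ) = (E s : ℤ) * ((x / E s : ℕ) : ℤ) + ((x % E s : ℕ) : ℤ) := by
    exact_mod_cast (Nat.div_add_mod x (E s)).symm
  have hlt : ((x % E s : ℕ) : ℤ) < (E s : ℤ) := by exact_mod_cast Nat.mod_lt x (E_pos s)
  have hnn : (0 : ℤ) ≤ ((x % E s : ℕ) : ℤ) := by positivity
  constructor
  · rintro ⟨j, m, hP, h⟩
    have hr := on_mem_range _ _ h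
    have hL : (3 : ℤ) * (Len m : ℤ) ≤ (E s : ℤ) := by exact_mod_cast three_Len_le hP.m_le
    have hj : j = x / E s := by
      have h1 : (j : ℤ) * (E s : ℤ) ≤ x := by linarith
      have h2 : (x : ℤ) < ((j : ℤ) + 1) * (E s : ℤ) := by linarith
      have h1' : j * E s ≤ x := by exact_mod_cast h1
      have h2' : x < (j + 1) * E s := by exact_mod_cast h2
      symm
      exact Nat.div_eq_of_lt_le h1' h2'
    subst hj
    refine ⟨m, hP, ?_⟩
    have : ((x % E s : ℕ) : ℤ) = (x : ℤ) - ((x / E s : ℕ) : ℤ) * (E s : ℤ) := by linarith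
    rw [this]; exact h
  · rintro ⟨m, hP, h⟩
    refine ⟨_, m, hP, ?_⟩
    have : (x : ℤ) - ((x / E s : ℕ) : ℤ) * (E s : ℤ) = ((x % E s : ℕ) : ℤ) := by linarith
    rw [this]; exact h

lemma stO_zero (y : ℕ) : stO k (0, y) = (0, y) := by simp [stO]

lemma stO_iter_zero (n y : ℕ) : (stO k)^[n] (0, y) = (0, y) := by
  induction n with
  | zero => rfl
  | succ n ih => rw [Function.iterate_succ_apply, stO_zero, ih]

/-- invariant of the step -/
lemma stO_inv (n y : ℕ) : On k (stO k (n, y)).1 ((stO k (n, y)).2 : ℤ) ↔ On k n (y : ℤ) := by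
  cases n with
  | zero => rw [stO_zero]
  | succ s =>
    rw [on_step]
    unfold stO
    simp only [Nat.add_eq_zero_iff, one_ne_zero, and_false, if_false, Nat.add_sub_cancel]
    by_cases h1 : y / E s = 0 ∨ y / E s = s + 1
    · rw [if_pos h1]
      constructor
      · intro h
        refine ⟨0, ?_, h⟩
        rcases h1 with h1 | h1
        · exact Or.inl ⟨h1, rfl⟩
        · exact Or.inr (Or.inl ⟨h1, rfl⟩)
      · rintro ⟨m, hP, h⟩
        have hP0 : Pc k s (y / E s) 0 := by
          rcases h1 with h1 | h1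
          · exact Or.inl ⟨h1, rfl⟩
          · exact Or.inr (Or.inl ⟨h1, rfl⟩)
        have := hP.unique hP0
        subst this
        exact h
    · rw [if_neg h1]
      push Not at h1
      by_cases h2 : PreB k (y / E s) s
      · rw [if_pos h2]
        obtain ⟨r, hr⟩ : ∃ r, y / E s = r + 1 := Nat.exists_eq_succ_of_ne_zero h1.1
        have hPr : Pre k r s := by rw [hr, PreB_iff] at h2; exact h2
        have hP0 : Pc k s (y / E s) (y / E s) := Or.inr (Or.inr ⟨rfl, r, hr, hPr⟩)
        constructor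
        · intro h
          exact ⟨_, hP0, h⟩
        · rintro ⟨m, hP, h⟩
          have := hP.unique hP0
          subst this
          exact h
      · rw [if_neg h2]
        simp only [on_zero_iff]
        constructor
        · intro h; simp at h
        · rintro ⟨m, hP, h⟩
          exfalso
          rcases hP with ⟨h3, _⟩ | ⟨h3, _⟩ | ⟨_, r, h3, hPr⟩
          · exact h1.1 h3
          · exact h1.2 h3
          · apply h2
            rw [h3, PreB_iff]
            exact hPr

lemma stO_fst (n y : ℕ) : (stO k (n, y)).1 ≤ n - 1 := by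
  cases n with
  | zero => rw [stO_zero]
  | succ s =>
    unfold stO
    simp only [Nat.add_eq_zero_iff, one_ne_zero, and_false, if_false, Nat.add_sub_cancel]
    by_cases h1 : y / E s = 0 ∨ y / E s = s + 1
    · rw [if_pos h1]; simp
    · rw [if_neg h1]
      by_cases h2 : PreB k (y / E s) s
      · rw [if_pos h2]; exact h2.2.1
      · rw [if_neg h2]; simp

lemma stO_iter (j : ℕ) : ∀ a : ℕ × ℕ, a.1 ≤ j → ((stO k)^[j] a).1 = 0 ∧
    (On k ((stO k)^[j] a).1 (((stO k)^[j] a).2 : ℤ) ↔ On k a.1 (a.2 : ℤ)) := by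
  induction j with
  | zero =>
    intro a ha
    exact ⟨by simpa using ha, Iff.rfl⟩
  | succ j ih =>
    intro a ha
    rw [Function.iterate_succ_apply]
    have h1 := stO_fst k a.1 a.2
    have h2 := stO_inv k a.1 a.2
    obtain ⟨h3, h4⟩ := ih (stO k a) (by rw [Prod.mk.eta] at h1; omega)
    refine ⟨h3, h4.trans ?_⟩
    rw [Prod.mk.eta] at h2
    exact h2

lemma onb_iff (n x : ℕ) : onb k n x ↔ On k n (x : ℤ) := by
  obtain ⟨h1, h2⟩ := stO_iter k n (n, x) le_rfl
  rw [← h2, h1, on_zero_iff]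
  unfold onb
  norm_cast

end Pool.Agent.MaxN
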