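import Pool.Agent.MP_8260ef_al.Rows

set_option autoImplicit false

open Nat.Partrec (Code)
open Nat.Partrec.Code

namespace Pool.Agent.MaxN

/-- code `c` halts on input `0` within `t` steps -/
def Hs (c t : ℕ) : Bool := (evaln t (Denumerable.ofNat Code c) 0).isSome

lemma Hs_primrec : Primrec₂ Hs := by
  unfold Hs
  exact Primrec.option_isSome.comp (primrec_evaln.comp (Primrec.pair (Primrec.pair Primrec.snd
    ((Primrec.ofNat Code).comp Primrec.fst)) (Primrec.const 0)))

lemma Hs_mono {c t t' : ℕ} (h : t ≤ t') (ht : Hs c t = true) : Hs c t' = true := by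
  unfold Hs at *
  rw [Option.isSome_iff_exists] at *
  obtain ⟨x, hx⟩ := ht
  exact ⟨x, evaln_mono h hx⟩

lemma Hs_iff (c : ℕ) : (∃ t, Hs c t = true) ↔ (eval (Denumerable.ofNat Code c) 0).Dom := by
  rw [Part.dom_iff_mem]
  constructor
  · rintro ⟨t, ht⟩
    unfold Hs at ht
    rw [Option.isSome_iff_exists] at ht
    obtain ⟨x, hx⟩ := ht
    exact ⟨x, evaln_complete.2 ⟨t, hx⟩⟩
  · rintro ⟨x, hx⟩
    obtain ⟨t, ht⟩ := evaln_complete.1 hx
    exact ⟨t, by unfold Hs; rw [Option.isSome_iff_exists]; exact ⟨x, ht⟩⟩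

lemma Hs_zero (c : ℕ) : Hs c 0 = false := by
  unfold Hs
  simp [evaln]

/-- injective enumeration with noncomputable range -/
def kf (s : ℕ) : ℕ :=
  if Hs s.unpair.1 s.unpair.2 = true ∧ ¬ Hs s.unpair.1 (s.unpair.2 - 1) = true then
    2 * s.unpair.1 else 2 * s + 1

lemma kf_primrec : Primrec kf := by
  unfold kf
  apply Primrec.ite
  · apply PrimrecPred.and
    · exact Primrec.eq.comp (Hs_primrec.comp (Primrec.fst.comp Primrec.unpair)
        (Primrec.snd.comp Primrec.unpair)) (Primrec.const true)
    · apply PrimrecPred.not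
      exact Primrec.eq.comp (Hs_primrec.comp (Primrec.fst.comp Primrec.unpair)
        (Primrec.nat_sub.comp (Primrec.snd.comp Primrec.unpair) (Primrec.const 1)))
        (Primrec.const true)
  · exact Primrec.nat_mul.comp (Primrec.const 2) (Primrec.fst.comp Primrec.unpair)
  · exact Primrec.succ.comp (Primrec.nat_mul.comp (Primrec.const 2) Primrec.id)

lemma kf_inj : Function.Injective kf := by
  intro s s' h
  unfold kf at h
  by_cases h1 : Hs s.unpair.1 s.unpair.2 = true ∧ ¬ Hs s.unpair.1 (s.unpair.2 - 1) = true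
  · by_cases h2 : Hs s'.unpair.1 s'.unpair.2 = true ∧ ¬ Hs s'.unpair.1 (s'.unpair.2 - 1) = true
    · rw [if_pos h1, if_pos h2] at h
      have hc : s.unpair.1 = s'.unpair.1 := by omega
      have ht : s.unpair.2 = s'.unpair.2 := by
        rw [← hc] at h2
        by_contra hne
        rcases lt_or_gt_of_ne hne with hlt | hgt
        · exact h2.2 (Hs_mono (by omega) h1.1)
        · exact h1.2 (Hs_mono (by omega) h2.1)
      rw [← Nat.pair_unpair s, ← Nat.pair_unpair s', hc, ht]
    · rw [if_pos h1, if_neg h2] at h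
      omega
  · by_cases h2 : Hs s'.unpair.1 s'.unpair.2 = true ∧ ¬ Hs s'.unpair.1 (s'.unpair.2 - 1) = true
    · rw [if_neg h1, if_pos h2] at h
      omega
    · rw [if_neg h1, if_neg h2] at h
      omega

lemma kf_range (c : ℕ) : (∃ s, kf s = 2 * c) ↔ (eval (Denumerable.ofNat Code c) 0).Dom := by
  rw [← Hs_iff]
  constructor
  · rintro ⟨s, hs⟩
    unfold kf at hs
    by_cases h1 : Hs s.unpair.1 s.unpair.2 = true ∧ ¬ Hs s.unpair.1 (s.unpair.2 - 1) = true
    · rw [if_pos h1] at hs
      have hc : s.unpair.1 = c := by omega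
      rw [hc] at h1
      exact ⟨_, h1.1⟩
    · rw [if_neg h1] at hs
      omega
  · intro h
    classical
    have h1 := Nat.find_spec h
    have h2 : 0 < Nat.find h := by
      rcases Nat.eq_zero_or_pos (Nat.find h) with h0 | h0
      · rw [h0, Hs_zero] at h1
        cases h1
      · exact h0
    have h3 : ¬ Hs c (Nat.find h - 1) = true := Nat.find_min h (by omega)
    refine ⟨Nat.pair c (Nat.find h), ?_⟩
    unfold kf
    rw [Nat.unpair_pair]
    rw [if_pos ⟨h1, h3⟩]

/-- there are late true stages with large values -/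
lemma exists_true {k : ℕ → ℕ} (hk : Function.Injective k) (c N : ℕ) :
    ∃ s, N ≤ s ∧ Tr k s ∧ c ≤ k s := by
  have hfin : Set.Finite {u | k u < c} := by
    have : {u | k u < c} = k ⁻¹' (Set.Iio c) := rfl
    rw [this]
    exact (Set.finite_Iio c).preimage hk.injOn
  obtain ⟨B, hB⟩ := hfin.bddAbove
  have hne : ({u | max N (B + 1) ≤ u} : Set ℕ).Nonempty :=
    ⟨max N (B + 1), le_refl (max N (B + 1))⟩
  obtain ⟨s, hs, hmin⟩ := (measure k).wf.has_min _ hne
  have hs' : max N (B + 1) ≤ s := hs
  refine ⟨s, le_trans (le_max_left _ _) hs', ?_, ?_⟩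
  · intro u hu
    have h1 : ¬ k u < k s := hmin u (le_trans hs' hu.le)
    have h2 : k u ≠ k s := fun h => by have := hk h; omega
    omega
  · by_contra hcon
    have h1 : s ≤ B := hB (show k s < c by omega)
    have h2 : B + 1 ≤ s := le_trans (le_max_right _ _) hs'
    omega

/-- the set of true stages is not computable -/
lemma Tr_not_computable : ¬ ComputablePred (fun s => Tr kf s) := by
  classical
  intro hT
  have hP : ComputablePred (fun p : ℕ × ℕ => Tr kf p.2 ∧ 2 * p.1 ≤ kf p.2) := by
    have h1 := hT.decide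
    have h2 : Computable fun p : ℕ × ℕ => (decide (Tr kf p.2) && decide (2 * p.1 ≤ kf p.2)) := by
      apply Primrec.and.to_comp.comp
      · exact h1.comp Computable.snd
      · apply Primrec.to_comp
        apply PrimrecPred.decide
        exact Primrec.nat_le.comp (Primrec.nat_mul.comp (Primrec.const 2) Primrec.fst)
          (kf_primrec.comp Primrec.snd)
    apply Computable.computablePred
    refine h2.of_eq fun p => ?_
    simp
  have hex : ∀ c : ℕ, ∃ s, Tr kf s ∧ 2 * c ≤ kf s := by
    intro c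
    obtain ⟨s, _, h1, h2⟩ := exists_true kf_inj (2 * c) 0
    exact ⟨s, h1, h2⟩
  have hfind := Computable.find (P := fun c s => Tr kf s ∧ 2 * c ≤ kf s) hP hex
  have hR : PrimrecRel fun n y : ℕ => ∃ x < n, kf x = 2 * y := by
    apply PrimrecRel.exists_lt
    exact Primrec.eq.comp₂ (kf_primrec.comp₂ Primrec₂.left)
      ((Primrec.nat_mul.comp (Primrec.const 2) Primrec.id).comp₂ Primrec₂.right)
  have hdec : Computable fun c : ℕ =>
      decide (∃ x < Nat.find (hex c) + 1, kf x = 2 * c) := by
    have h1 : Computable₂ fun n y : ℕ => decide (∃ x < n, kf x = 2 * y) := hR.decide.to_comp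
    exact h1.comp (Computable.succ.comp hfind) Computable.id
  apply ComputablePred.halting_problem 0
  apply Computable.computablePred
  refine (hdec.comp (Primrec.encode (α := Code)).to_comp).of_eq fun c => ?_
  simp only [decide_eq_decide]
  have h1 := kf_range (Encodable.encode c)
  rw [Denumerable.ofNat_encode] at h1
  rw [← h1]
  constructor
  · rintro ⟨x, _, hx⟩
    exact ⟨x, hx⟩
  · rintro ⟨x, hx⟩
    obtain ⟨h2, h3⟩ := Nat.find_spec (hex (Encodable.encode c))
    refine ⟨x, ?_, hx⟩
    by_contra hcon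
    have h4 := h2 x (by omega)
    omega

end Pool.Agent.MaxN
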