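import Pool.Agent.MP_8260ef_al.Rows

set_option autoImplicit false

open scoped commutatorElement

namespace Pool.Agent.MaxN

/-- sign character -/
def sgn (a : ZMod 2) : ZMod 3 := if a = 0 then 1 else -1

lemma sgn_add : ∀ a b : ZMod 2, sgn (a + b) = sgn a * sgn b := by decide

lemma sgn_zero : sgn 0 = 1 := rfl

lemma sgn_one : sgn 1 = -1 := by decide

lemma sgn_sq : ∀ a : ZMod 2, sgn a * sgn a = 1 := by decide

/-- `x ↦ (x + sh, sgn * v + tr)` on each row -/
@[ext] structure Aff (ι : Type) where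
  sh : ℤ
  sg : ι → ℤ → ZMod 2
  tr : ι → ℤ → ZMod 3

namespace Aff

variable {ι : Type}

instance : Mul (Aff ι) where
  mul g h :=
    { sh := g.sh + h.sh
      sg := fun r i => g.sg r (i + h.sh) + h.sg r i
      tr := fun r i => sgn (g.sg r (i + h.sh)) * h.tr r i + g.tr r (i + h.sh) }

instance : One (Aff ι) where
  one := { sh := 0, sg := fun _ _ => 0, tr := fun _ _ => 0 }

instance : Inv (Aff ι) where
  inv g :=
    { sh := -g.sh
      sg := fun r i => g.sg r (i - g.sh)
      tr := fun r i => - (sgn (g.sg r (i - g.sh)) * g.tr r (i - g.sh)) }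

@[simp] lemma mul_sh (g h : Aff ι) : (g * h).sh = g.sh + h.sh := rfl
@[simp] lemma mul_sg (g h : Aff ι) (r : ι) (i : ℤ) :
    (g * h).sg r i = g.sg r (i + h.sh) + h.sg r i := rfl
@[simp] lemma mul_tr (g h : Aff ι) (r : ι) (i : ℤ) :
    (g * h).tr r i = sgn (g.sg r (i + h.sh)) * h.tr r i + g.tr r (i + h.sh) := rfl
@[simp] lemma one_sh : (1 : Aff ι).sh = 0 := rfl
@[simp] lemma one_sg (r : ι) (i : ℤ) : (1 : Aff ι).sg r i = 0 := rfl
@[simp] lemma one_tr (r : ι) (i : ℤ) : (1 : Aff ι).tr r i = 0 := rfl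
@[simp] lemma inv_sh (g : Aff ι) : (g⁻¹).sh = -g.sh := rfl
@[simp] lemma inv_sg (g : Aff ι) (r : ι) (i : ℤ) :
    (g⁻¹).sg r i = g.sg r (i - g.sh) := rfl
@[simp] lemma inv_tr (g : Aff ι) (r : ι) (i : ℤ) :
    (g⁻¹).tr r i = - (sgn (g.sg r (i - g.sh)) * g.tr r (i - g.sh)) := rfl

lemma ext' {g h : Aff ι} (h1 : g.sh = h.sh) (h2 : ∀ r i, g.sg r i = h.sg r i)
    (h3 : ∀ r i, g.tr r i = h.tr r i) : g = h :=
  Aff.ext h1 (funext fun r => funext fun i => h2 r i) (funext fun r => funext fun i => h3 r i)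

instance : Group (Aff ι) := Group.ofLeftAxioms
  (by
    intro a b c
    apply ext'
    · simp [add_assoc]
    · intro r i
      simp only [mul_sg, mul_sh]
      rw [show i + (b.sh + c.sh) = i + c.sh + b.sh by ring]
      ring
    · intro r i
      simp only [mul_tr, mul_sg, mul_sh, sgn_add]
      rw [show i + (b.sh + c.sh) = i + c.sh + b.sh by ring]
      ring)
  (by
    intro a
    apply ext'
    · simp
    · intro r i; simp
    · intro r i; simp [sgn_zero])
  (by
    intro a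
    apply ext'
    · simp
    · intro r i
      simp only [mul_sg, inv_sg, one_sg, add_sub_cancel_right]
      have : ∀ x : ZMod 2, x + x = 0 := by decide
      exact this _
    · intro r i
      simp only [mul_tr, inv_sg, inv_tr, one_tr, add_sub_cancel_right]
      ring)

/-- translations -/
def T (f : ι → ℤ → ZMod 3) : Aff ι := ⟨0, fun _ _ => 0, f⟩

@[simp] lemma T_sh (f : ι → ℤ → ZMod 3) : (T f).sh = 0 := rfl
@[simp] lemma T_sg (f : ι → ℤ → ZMod 3) (r : ι) (i : ℤ) : (T f).sg r i = 0 := rfl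
@[simp] lemma T_tr (f : ι → ℤ → ZMod 3) (r : ι) (i : ℤ) : (T f).tr r i = f r i := rfl

lemma T_mul (f g : ι → ℤ → ZMod 3) : T f * T g = T (f + g) := by
  apply ext'
  · simp
  · intro r i; simp
  · intro r i; simp [sgn_zero, add_comm]

lemma T_zero : (T 0 : Aff ι) = 1 := rfl

lemma T_inv (f : ι → ℤ → ZMod 3) : (T f)⁻¹ = T (-f) := by
  apply ext'
  · simp
  · intro r i; simp
  · intro r i; simp [sgn_zero]

lemma T_inj {f g : ι → ℤ → ZMod 3} (h : (T f : Aff ι) = T g) : f = g := by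
  have := congrArg Aff.tr h
  exact this

lemma conj_T (g : Aff ι) (f : ι → ℤ → ZMod 3) :
    g * T f * g⁻¹ = T (fun r i => sgn (g.sg r (i - g.sh)) * f r (i - g.sh)) := by
  apply ext'
  · simp
  · intro r i
    simp only [mul_sg, T_sg, T_sh, inv_sg, inv_sh, add_zero]
    rw [show i + -g.sh = i - g.sh by ring]
    have : ∀ x : ZMod 2, x + x = 0 := by decide
    exact this _
  · intro r i
    simp only [mul_sg, mul_tr, T_sg, T_sh, T_tr, inv_tr, inv_sh, add_zero]
    rw [show i + -g.sh = i - g.sh by ring]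
    have h1 := sgn_sq (g.sg r (i - g.sh))
    linear_combination (-g.tr r (i - g.sh)) * h1

/-- elements of the form shift zero -/
lemma eq_of_sh_zero (g : Aff ι) (h : g.sh = 0) (h2 : ∀ r i, g.sg r i = 0) : g = T g.tr := by
  apply ext'
  · simpa using h
  · intro r i; simpa using h2 r i
  · intro r i; simp

/-- subgroup of elements with zero shift -/
def N1 (ι : Type) : Subgroup (Aff ι) where
  carrier := {g | g.sh = 0}
  mul_mem' := by
    intro a b ha hb
    simp only [Set.mem_ofPred_eq] at *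
    simp [ha, hb]
  one_mem' := rfl
  inv_mem' := by
    intro a ha
    simp only [Set.mem_ofPred_eq] at *
    simp [ha]

/-- subgroup of translations -/
def N2 (ι : Type) : Subgroup (Aff ι) where
  carrier := {g | g.sh = 0 ∧ ∀ r i, g.sg r i = 0}
  mul_mem' := by
    intro a b ha hb
    simp only [Set.mem_ofPred_eq] at *
    refine ⟨by simp [ha.1, hb.1], fun r i => by simp [ha.2, hb.2]⟩
  one_mem' := ⟨rfl, fun _ _ => rfl⟩
  inv_mem' := by
    intro a ha
    simp only [Set.mem_ofPred_eq] at *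
    refine ⟨by simp [ha.1], fun r i => by simp [ha.2]⟩

lemma der1 : derivedSeries (Aff ι) 1 ≤ N1 ι := by
  rw [derivedSeries_succ, Subgroup.commutator_le]
  intro g _ h _
  change (g * h * g⁻¹ * h⁻¹).sh = 0
  simp

lemma der2 : derivedSeries (Aff ι) 2 ≤ N2 ι := by
  rw [derivedSeries_succ, Subgroup.commutator_le]
  intro g hg h hh
  have h1 : g.sh = 0 := der1 hg
  have h2 : h.sh = 0 := der1 hh
  change (g * h * g⁻¹ * h⁻¹).sh = 0 ∧ ∀ r i, (g * h * g⁻¹ * h⁻¹).sg r i = 0
  refine ⟨by simp, fun r i => ?_⟩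
  simp only [mul_sg, inv_sg, inv_sh, h1, h2, neg_zero, add_zero, sub_zero]
  generalize g.sg r i = x
  generalize h.sg r i = y
  revert x y; decide

lemma der3 : derivedSeries (Aff ι) 3 = ⊥ := by
  rw [eq_bot_iff, derivedSeries_succ, Subgroup.commutator_le]
  intro g hg h hh
  have h1 : g.sh = 0 ∧ ∀ r i, g.sg r i = 0 := der2 hg
  have h2 : h.sh = 0 ∧ ∀ r i, h.sg r i = 0 := der2 hh
  rw [Subgroup.mem_bot]
  rw [eq_of_sh_zero g h1.1 h1.2, eq_of_sh_zero h h2.1 h2.2, commutatorElement_def, T_mul, T_inv,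
    T_mul, T_inv, T_mul]
  rw [← T_zero]
  congr 1
  abel

end Aff

/-- the index type of the rows which are present -/
abbrev Idx (k : ℕ → ℕ) : Type := {n : ℕ // Row k n}

open Classical in
/-- mark indicator with values in `ZMod 2` -/
noncomputable def chi2 (k : ℕ → ℕ) (r : Idx k) (i : ℤ) : ZMod 2 := if On k r.1 i then 1 else 0

open Classical in
/-- mark indicator with values in `ZMod 3` -/
noncomputable def chi3 (k : ℕ → ℕ) (r : Idx k) (i : ℤ) : ZMod 3 := if On k r.1 i then 1 else 0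

lemma sgn_chi (k : ℕ → ℕ) (r : Idx k) (i : ℤ) : sgn (chi2 k r i) = 1 + chi3 k r i := by
  unfold chi2 chi3
  by_cases h : On k r.1 i
  · simp only [h, if_true]; decide
  · simp only [h, if_false]; decide

/-- three generators -/
noncomputable def gE (k : ℕ → ℕ) : Aff (Idx k) := Aff.T (fun _ _ => 1)
noncomputable def gA (k : ℕ → ℕ) : Aff (Idx k) := ⟨0, chi2 k, fun _ _ => 0⟩
noncomputable def gT (k : ℕ → ℕ) : Aff (Idx k) := ⟨1, fun _ _ => 0, fun _ _ => 0⟩

noncomputable def gens (k : ℕ → ℕ) : Fin 3 → Aff (Idx k) := ![gE k, gA k, gT k]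

/-- the homomorphism from the free group -/
noncomputable def phi (k : ℕ → ℕ) : FreeGroup (Fin 3) →* Aff (Idx k) := FreeGroup.lift (gens k)

/-- the set of relators -/
def Rel (k : ℕ → ℕ) : Set (FreeGroup (Fin 3)) := {w | phi k w = 1}

lemma Rel_eq (k : ℕ → ℕ) : Rel k = ((phi k).ker : Set (FreeGroup (Fin 3))) := rfl

lemma normalClosure_Rel (k : ℕ → ℕ) : Subgroup.normalClosure (Rel k) = (phi k).ker := by
  rw [Rel_eq, Subgroup.normalClosure_eq_self]

/-- the homomorphism from the presented group -/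
noncomputable def psi (k : ℕ → ℕ) : PresentedGroup (Rel k) →* Aff (Idx k) :=
  PresentedGroup.toGroup (f := gens k) (fun _ hr => hr)

lemma psi_mk (k : ℕ → ℕ) (w : FreeGroup (Fin 3)) :
    psi k (PresentedGroup.mk (Rel k) w) = phi k w := rfl

lemma psi_inj (k : ℕ → ℕ) : Function.Injective (psi k) := by
  rw [injective_iff_map_eq_one]
  intro x
  induction x using PresentedGroup.induction_on with
  | _ w =>
    intro h
    rw [psi_mk] at h
    rw [PresentedGroup.mk_eq_one_iff, normalClosure_Rel]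
    exact h

lemma psi_range (k : ℕ → ℕ) : (psi k).range = (phi k).range := by
  ext g
  constructor
  · rintro ⟨x, rfl⟩
    induction x using PresentedGroup.induction_on with
    | _ w => exact ⟨w, (psi_mk k w).symm⟩
  · rintro ⟨w, rfl⟩
    exact ⟨PresentedGroup.mk (Rel k) w, psi_mk k w⟩

lemma solvable (k : ℕ → ℕ) : derivedSeries (PresentedGroup (Rel k)) 3 = ⊥ := by
  rw [eq_bot_iff]
  have h := map_derivedSeries_le_derivedSeries (psi k) 3
  rw [Aff.der3, ← Subgroup.map_bot (psi k)] at h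
  exact (Subgroup.map_le_map_iff_of_injective (psi_inj k)).1 h

/-- powers of the shift generator -/
lemma gT_zpow (k : ℕ → ℕ) (n : ℤ) : gT k ^ n = ⟨n, fun _ _ => 0, fun _ _ => 0⟩ := by
  induction n using Int.induction_on with
  | zero => rfl
  | succ n ih =>
    rw [zpow_add_one, ih]
    apply Aff.ext'
    · simp [gT]
    · intro r i; simp [gT]
    · intro r i; simp [gT]
  | pred n ih =>
    rw [zpow_sub_one, ih]
    apply Aff.ext'
    · simp [gT]; ring
    · intro r i; simp [gT]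
    · intro r i; simp [gT]

/-- the conjugate of `gA` -/
noncomputable def gAj (k : ℕ → ℕ) (j : ℤ) : Aff (Idx k) :=
  ⟨0, fun r i => chi2 k r (i + j), fun _ _ => 0⟩

lemma conj_gA (k : ℕ → ℕ) (j : ℤ) : gT k ^ (-j) * gA k * gT k ^ j = gAj k j := by
  rw [gT_zpow, gT_zpow]
  apply Aff.ext'
  · simp [gA, gAj]
  · intro r i; simp [gA, gAj]
  · intro r i; simp [gA, gAj]

lemma conj_gAj_T (k : ℕ → ℕ) (j : ℤ) (f : Idx k → ℤ → ZMod 3) :
    gAj k j * Aff.T f * (gAj k j)⁻¹ = Aff.T (fun r i => (1 + chi3 k r (i + j)) * f r i) := by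
  rw [Aff.conj_T]
  congr 1
  funext r i
  simp [gAj, sgn_chi]

lemma comm_gAj_T (k : ℕ → ℕ) (j : ℤ) (f : Idx k → ℤ → ZMod 3) :
    ⁅gAj k j, Aff.T f⁆ = Aff.T (fun r i => chi3 k r (i + j) * f r i) := by
  rw [commutatorElement_def, conj_gAj_T, Aff.T_inv, Aff.T_mul]
  congr 1
  funext r i
  simp only [Pi.add_apply, Pi.neg_apply]
  ring

/-- the test word -/
def tw (s : ℕ) : FreeGroup (Fin 3) :=
  ⁅(FreeGroup.of 1 : FreeGroup (Fin 3)),
    ⁅(FreeGroup.of 2 : FreeGroup (Fin 3)) ^ (-(D s : ℤ)) * FreeGroup.of 1 *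
      (FreeGroup.of 2) ^ (D s : ℤ), (FreeGroup.of 0 : FreeGroup (Fin 3))⁆⁆

lemma phi_tw (k : ℕ → ℕ) (s : ℕ) :
    phi k (tw s) = Aff.T (fun r i => chi3 k r i * chi3 k r (i + D s)) := by
  have h0 : phi k (FreeGroup.of 0) = gE k := by simp [phi, gens]
  have h1 : phi k (FreeGroup.of 1) = gA k := by simp [phi, gens]
  have h2 : phi k (FreeGroup.of 2) = gT k := by simp [phi, gens]
  have h3 : gA k = gAj k 0 := by
    apply Aff.ext'
    · rfl
    · intro r i; simp [gA, gAj]
    · intro r i; rfl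
  unfold tw
  simp only [map_commutatorElement, map_mul, map_zpow, h0, h1, h2]
  rw [conj_gA, gE, comm_gAj_T, h3, comm_gAj_T]
  congr 1
  funext r i
  simp

lemma tw_iff (k : ℕ → ℕ) (s : ℕ) : tw s ∈ Rel k ↔ ¬ Tr k s := by
  change phi k (tw s) = 1 ↔ _
  rw [phi_tw, ← Aff.T_zero]
  constructor
  · intro h hT
    have h1 := Aff.T_inj h
    have h2 := congrFun (congrFun h1 ⟨s + 1, Or.inr ⟨s, rfl, hT⟩⟩) 0
    have h3 : On k (s + 1) 0 := on_left _
    have h4 : On k (s + 1) (D s : ℤ) := on_right (s + 1)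
    simp [chi3, h3, h4] at h2
  · intro h
    congr 1
    funext r i
    simp only [Pi.zero_apply]
    by_cases h1 : On k r.1 i
    · by_cases h2 : On k r.1 (i + D s)
      · exact absurd (dist_row s r.1 i h1 h2 r.2).tr h
      · simp [chi3, h2]
    · simp [chi3, h1]

end Pool.Agent.MaxN
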