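import Pool.Agent.MP_8260ef_al.Grp

set_option autoImplicit false

namespace Pool.Agent.MaxN

variable {k : ℕ → ℕ}

/-- functions on all positions of all rows -/
abbrev Fn (k : ℕ → ℕ) : Type := Idx k → ℤ → ZMod 3

/-- local functions of radius `q` -/
def Loc (q : ℕ) (f : Fn k) : Prop :=
  ∀ (r r' : Idx k) (i i' : ℤ),
    (∀ d : ℤ, |d| ≤ q → (On k r.1 (i + d) ↔ On k r'.1 (i' + d))) → f r i = f r' i'

/-- families of local functions closed under shifts and multiplication by marks -/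
structure Good (I : AddSubgroup (Fn k)) : Prop where
  shift : ∀ f ∈ I, ∀ d : ℤ, (fun r i => f r (i + d) : Fn k) ∈ I
  chi : ∀ f ∈ I, ∀ j : ℤ, (fun r i => chi3 k r (i + j) * f r i : Fn k) ∈ I
  loc : ∀ f ∈ I, ∃ q, Loc q f

lemma mul_dep {I : AddSubgroup (Fn k)} (hI : Good I) (F : Finset ℤ) :
    ∀ (G : (ℤ → Prop) → ZMod 3), (∀ w w' : ℤ → Prop, (∀ j ∈ F, (w j ↔ w' j)) → G w = G w') →
    ∀ f ∈ I, (fun r i => G (fun d => On k r.1 (i + d)) * f r i : Fn k) ∈ I := by
  classical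
  induction F using Finset.induction_on with
  | empty =>
    intro G hG f hf
    have h1 : (fun r i => G (fun d => On k r.1 (i + d)) * f r i : Fn k)
        = (G (fun _ => False)).val • f := by
      funext r i
      rw [hG _ (fun _ => False) (by simp)]
      simp only [Pi.smul_apply, nsmul_eq_mul, ZMod.natCast_val, ZMod.cast_id', id_eq]
    rw [h1]
    exact AddSubgroup.nsmul_mem _ hf _
  | insert j F hj ih =>
    intro G hG f hf
    have hd : ∀ b : Prop, (fun r i => G (Function.update (fun d => On k r.1 (i + d)) j b) * f r i :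
        Fn k) ∈ I := by
      intro b
      refine ih (fun w => G (Function.update w j b)) ?_ f hf
      intro w w' hw
      apply hG
      intro a ha
      by_cases haj : a = j
      · subst haj; simp
      · rw [Function.update_of_ne haj, Function.update_of_ne haj]
        exact hw a (by simpa [haj] using ha)
    have h1 := hI.chi _ (hd True) j
    have h2 := hI.chi _ (hd False) j
    have h3 := I.add_mem h1 (I.sub_mem (hd False) h2)
    convert h3 using 1
    funext r i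
    simp only [Pi.add_apply, Pi.sub_apply]
    by_cases h : On k r.1 (i + j)
    · have e : Function.update (fun d => On k r.1 (i + d)) j True = fun d => On k r.1 (i + d) := by
        funext d
        by_cases hdj : d = j
        · subst hdj; simp [h]
        · rw [Function.update_of_ne hdj]
      rw [e]
      simp [chi3, h]
    · have e : Function.update (fun d => On k r.1 (i + d)) j False = fun d => On k r.1 (i + d) := by
        funext d
        by_cases hdj : d = j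
        · subst hdj; simp [h]
        · rw [Function.update_of_ne hdj]
      rw [e]
      simp [chi3, h]

/-- closure under multiplication by local functions -/
lemma mul_loc {I : AddSubgroup (Fn k)} (hI : Good I) {q : ℕ} {g : Fn k} (hg : Loc q g)
    {f : Fn k} (hf : f ∈ I) : g * f ∈ I := by
  classical
  let G : (ℤ → Prop) → ZMod 3 := fun w =>
    if h : ∃ r : Idx k, ∃ i : ℤ, ∀ d : ℤ, |d| ≤ q → (On k r.1 (i + d) ↔ w d) then
      g h.choose h.choose_spec.choose else 0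
  have hG : ∀ w w' : ℤ → Prop, (∀ j ∈ Finset.Icc (-(q : ℤ)) q, (w j ↔ w' j)) → G w = G w' := by
    intro w w' hw
    have : (∃ r : Idx k, ∃ i : ℤ, ∀ d : ℤ, |d| ≤ q → (On k r.1 (i + d) ↔ w d)) ↔
        (∃ r : Idx k, ∃ i : ℤ, ∀ d : ℤ, |d| ≤ q → (On k r.1 (i + d) ↔ w' d)) := by
      refine exists_congr fun r => exists_congr fun i => forall_congr' fun d => ?_
      refine imp_congr_right fun hd => ?_
      rw [hw d (by rw [abs_le] at hd; simpa using hd)]
    by_cases h : ∃ r : Idx k, ∃ i : ℤ, ∀ d : ℤ, |d| ≤ q → (On k r.1 (i + d) ↔ w d)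
    · have h' := this.1 h
      simp only [G, h, h', dif_pos]
      apply hg
      intro d hd
      rw [h.choose_spec.choose_spec d hd, h'.choose_spec.choose_spec d hd]
      exact hw d (by rw [abs_le] at hd; simpa using hd)
    · have h' : ¬ (∃ r : Idx k, ∃ i : ℤ, ∀ d : ℤ, |d| ≤ q → (On k r.1 (i + d) ↔ w' d)) :=
        fun h'' => h (this.2 h'')
      simp only [G, h, h', dif_neg, not_false_eq_true]
  have h1 := mul_dep hI _ G hG f hf
  convert h1 using 1
  funext r i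
  simp only [Pi.mul_apply]
  congr 1
  have h : ∃ r' : Idx k, ∃ i' : ℤ, ∀ d : ℤ, |d| ≤ q →
      (On k r'.1 (i' + d) ↔ (fun d => On k r.1 (i + d)) d) := ⟨r, i, fun d _ => Iff.rfl⟩
  simp only [G, h, dif_pos]
  apply hg
  intro d hd
  exact (h.choose_spec.choose_spec d hd).symm

/-- covered regions -/
def Cov (I : AddSubgroup (Fn k)) (P : Idx k → ℤ → Prop) : Prop :=
  ∃ u ∈ I, ∀ r i, P r i → u r i ≠ 0

lemma cov_false (I : AddSubgroup (Fn k)) {P : Idx k → ℤ → Prop} (h : ∀ r i, ¬ P r i) : Cov I P :=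
  ⟨0, I.zero_mem, fun r i hP => absurd hP (h r i)⟩

lemma cov_mono {I : AddSubgroup (Fn k)} {P Q : Idx k → ℤ → Prop} (h : Cov I Q)
    (hPQ : ∀ r i, P r i → Q r i) : Cov I P := by
  obtain ⟨u, hu, hu2⟩ := h
  exact ⟨u, hu, fun r i hP => hu2 r i (hPQ r i hP)⟩

lemma cov_or {I : AddSubgroup (Fn k)} (hI : Good I) {P Q : Idx k → ℤ → Prop}
    (hP : Cov I P) (hQ : Cov I Q) : Cov I (fun r i => P r i ∨ Q r i) := by
  obtain ⟨u, hu, hu2⟩ := hP
  obtain ⟨v, hv, hv2⟩ := hQ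
  obtain ⟨q1, h1⟩ := hI.loc u hu
  obtain ⟨q2, h2⟩ := hI.loc v hv
  have huu := mul_loc hI h1 hu
  have hvv := mul_loc hI h2 hv
  have hm := mul_loc hI h1 (mul_loc hI h1 hvv)
  refine ⟨u * u + v * v - u * (u * (v * v)), I.sub_mem (I.add_mem huu hvv) hm, ?_⟩
  intro r i h
  simp only [Pi.add_apply, Pi.sub_apply, Pi.mul_apply]
  have key : ∀ a b : ZMod 3, (a ≠ 0 ∨ b ≠ 0) → a * a + b * b - a * (a * (b * b)) ≠ 0 := by decide
  apply key
  rcases h with h | h
  · exact Or.inl (hu2 r i h)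
  · exact Or.inr (hv2 r i h)

lemma cov_finset {I : AddSubgroup (Fn k)} (hI : Good I) {α : Type} (s : Finset α)
    (P : α → Idx k → ℤ → Prop) (h : ∀ a ∈ s, Cov I (P a)) :
    Cov I (fun r i => ∃ a ∈ s, P a r i) := by
  classical
  induction s using Finset.induction_on with
  | empty => exact cov_false I (by simp)
  | insert a s ha ih =>
    have h1 := ih (fun b hb => h b (Finset.mem_insert_of_mem hb))
    have h2 := h a (Finset.mem_insert_self a s)
    refine cov_mono (cov_or hI h2 h1) ?_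
    rintro r i ⟨b, hb, hP⟩
    rcases Finset.mem_insert.1 hb with rfl | hb
    · exact Or.inl hP
    · exact Or.inr ⟨b, hb, hP⟩

lemma cov_shift {I : AddSubgroup (Fn k)} (hI : Good I) {P : Idx k → ℤ → Prop}
    (h : Cov I P) (d : ℤ) : Cov I (fun r i => P r (i + d)) := by
  obtain ⟨u, hu, hu2⟩ := h
  exact ⟨_, hI.shift u hu d, fun r i hP => hu2 r (i + d) hP⟩

lemma mem_of_cov {I : AddSubgroup (Fn k)} (hI : Good I) {f : Fn k} {q : ℕ} (hf : Loc q f)
    (h : Cov I (fun r i => f r i ≠ 0)) : f ∈ I := by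
  obtain ⟨u, hu, hu2⟩ := h
  obtain ⟨q1, h1⟩ := hI.loc u hu
  have := mul_loc hI hf (mul_loc hI h1 hu)
  convert this using 1
  funext r i
  simp only [Pi.mul_apply]
  by_cases h0 : f r i = 0
  · rw [h0, zero_mul]
  · have key : ∀ a b : ZMod 3, b ≠ 0 → a = a * (b * b) := by decide
    exact key _ _ (hu2 r i h0)

/-- nonzero on all positions with an empty window -/
def Zt (f : Fn k) : Prop :=
  ∃ q : ℕ, ∀ (r : Idx k) (i : ℤ), (∀ d : ℤ, |d| ≤ q → ¬ On k r.1 (i + d)) → f r i ≠ 0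

/-- empty windows are everywhere -/
lemma exists_empty (q : ℕ) : ∃ B : ℕ, ∀ (r : Idx k) (i : ℤ), ∃ e : ℤ, |e| ≤ B ∧
    ∀ d : ℤ, |d| ≤ q → ¬ On k r.1 (i + e + d) := by
  refine ⟨Len (2 * q + 1) + 2 * q + 1, fun r i => ?_⟩
  by_cases h : ∀ d : ℤ, |d| ≤ q → ¬ On k r.1 (i + d)
  · refine ⟨0, by simp only [abs_zero]; positivity, fun d hd => by simpa using h d hd⟩
  · push Not at h
    obtain ⟨d0, hd0, hon⟩ := h
    rw [abs_le] at hd0
    obtain ⟨m, c, hm, hrow, hc, heq⟩ := cluster (k := k) (L := 2 * q + 1) (by omega) r.1 _ hon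
    have hr := on_mem_range _ _ hc
    have hL : (Len m : ℤ) ≤ (Len (2 * q + 1) : ℤ) := by exact_mod_cast Len_mono hm
    refine ⟨c + (Len m : ℤ) + q + 1 - i, ?_, ?_⟩
    · rw [abs_le]
      push_cast
      constructor <;> linarith
    · intro d hd hcon
      rw [abs_le] at hd
      rw [show i + (c + (Len m : ℤ) + q + 1 - i) + d = c + (Len m : ℤ) + q + 1 + d by ring] at hcon
      rw [heq _ (by push_cast; have : (0 : ℤ) ≤ (Len m : ℤ) := by positivity
                    linarith) (by push_cast; linarith)] at hcon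
      have := on_mem_range _ _ hcon
      linarith

/-- a nonzero local function touches all long rows -/
lemma touch_large {h0 : Fn k} {q : ℕ} (hq : Loc q h0) {r0 : Idx k} {i0 : ℤ}
    (hne : h0 r0 i0 ≠ 0) : ∃ n0 g0 : ℕ, ∀ m : Idx k, n0 ≤ m.1 → ∃ i : ℤ, h0 m i ≠ 0 ∧
      -(g0 : ℤ) ≤ i - q ∧ i + q ≤ (Len m.1 : ℤ) + g0 := by
  refine ⟨r0.1 + (i0.natAbs + q) + 2, i0.natAbs + q, ?_⟩
  rintro ⟨m, hm⟩ hle
  simp only at hle ⊢
  obtain ⟨s, rfl⟩ : ∃ s, m = s + 1 := ⟨m - 1, by omega⟩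
  obtain ⟨j, hj⟩ := exists_piece r0.2 (by omega : r0.1 ≤ s)
  have hE : 3 * s ≤ E s := three_le_E (by omega)
  have hEg : (3 : ℤ) * ((i0.natAbs + q : ℕ) : ℤ) < 2 * (E s : ℤ) := by
    have : 3 * (i0.natAbs + q) < 2 * E s := by omega
    exact_mod_cast this
  have hi0 : |i0| = (i0.natAbs : ℤ) := Int.abs_eq_natAbs i0
  have hi1 := neg_abs_le i0
  have hi2 := le_abs_self i0
  have hj0 : (0 : ℤ) ≤ (j : ℤ) * (E s : ℤ) := by positivity
  have hj1 : (j : ℤ) * (E s : ℤ) ≤ (D s : ℤ) := by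
    have : j * E s ≤ D s := by
      unfold D
      exact Nat.mul_le_mul_right _ hj.j_le
    exact_mod_cast this
  have hLr : (0 : ℤ) ≤ (Len r0.1 : ℤ) := by positivity
  refine ⟨(j : ℤ) * (E s : ℤ) + i0, ?_, ?_, ?_⟩
  · rw [hq ⟨s + 1, hm⟩ r0 _ i0]
    · exact hne
    · intro d hd
      rw [abs_le] at hd
      simp only
      rw [iso hj hEg (y := (j : ℤ) * (E s : ℤ) + i0 + d) (by push_cast; linarith)
        (by push_cast; linarith)]
      rw [show (j : ℤ) * (E s : ℤ) + i0 + d - (j : ℤ) * (E s : ℤ) = i0 + d by ring]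
  · push_cast; linarith
  · simp only [Len]; push_cast; linarith

/-- data for all touched rows -/
lemma touch_data {I : AddSubgroup (Fn k)} (hI : Good I) {h0 : Fn k} (h0I : h0 ∈ I)
    (hne : h0 ≠ 0) (T : Idx k → Prop) (hT : ∀ r, T r → ∃ h ∈ I, ∃ i : ℤ, h r i ≠ 0) :
    ∃ L0 : ℕ, ∀ m : Idx k, T m → ∃ h ∈ I, ∃ q : ℕ, ∃ i : ℤ, Loc q h ∧ h m i ≠ 0 ∧
      -(L0 : ℤ) ≤ i - q ∧ i + q ≤ (Len m.1 : ℤ) + L0 := by
  classical
  obtain ⟨q0, hq0⟩ := hI.loc h0 h0I
  obtain ⟨r0, i0, h00⟩ : ∃ r i, h0 r i ≠ 0 := by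
    by_contra hcon
    push Not at hcon
    exact hne (funext fun r => funext fun i => hcon r i)
  obtain ⟨n0, g0, hlarge⟩ := touch_large hq0 h00
  have hb : ∀ m : Idx k, ∃ b : ℕ, T m → ∃ h ∈ I, ∃ q : ℕ, ∃ i : ℤ, Loc q h ∧ h m i ≠ 0 ∧
      -(b : ℤ) ≤ i - q ∧ i + q ≤ (b : ℤ) := by
    intro m
    by_cases hm : T m
    · obtain ⟨h, hh, i, hi⟩ := hT m hm
      obtain ⟨q, hq⟩ := hI.loc h hh
      refine ⟨i.natAbs + q, fun _ => ⟨h, hh, q, i, hq, hi, ?_, ?_⟩⟩
      · have hi0 : |i| = (i.natAbs : ℤ) := Int.abs_eq_natAbs i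
        have hi1 := neg_abs_le i
        push_cast; linarith
      · have hi0 : |i| = (i.natAbs : ℤ) := Int.abs_eq_natAbs i
        have hi1 := le_abs_self i
        push_cast; linarith
    · exact ⟨0, fun h => absurd h hm⟩
  choose b hb using hb
  let b' : ℕ → ℕ := fun n => if h : Row k n then b ⟨n, h⟩ else 0
  refine ⟨g0 + (Finset.range n0).sup b', fun m hm => ?_⟩
  by_cases hmn : n0 ≤ m.1
  · obtain ⟨i, h1, h2, h3⟩ := hlarge m hmn
    refine ⟨h0, h0I, q0, i, hq0, h1, ?_, ?_⟩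
    · push_cast; have : (0 : ℤ) ≤ ((Finset.range n0).sup b' : ℕ) := by positivity
      linarith
    · push_cast; have : (0 : ℤ) ≤ ((Finset.range n0).sup b' : ℕ) := by positivity
      linarith
  · obtain ⟨h, hh, q, i, h1, h2, h3, h4⟩ := hb m hm
    have h5 : b' m.1 ≤ (Finset.range n0).sup b' :=
      Finset.le_sup (f := b') (Finset.mem_range.2 (by omega))
    have h6 : b' m.1 = b m := by simp only [b', m.2, dif_pos]
    rw [h6] at h5
    have h7 : (b m : ℤ) ≤ (((Finset.range n0).sup b' : ℕ) : ℤ) := by exact_mod_cast h5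
    have h8 : (0 : ℤ) ≤ (Len m.1 : ℤ) := by positivity
    have h9 : (0 : ℤ) ≤ (g0 : ℤ) := by positivity
    refine ⟨h, hh, q, i, h1, h2, ?_, ?_⟩
    · push_cast; linarith
    · push_cast; linarith

/-- the key lemma -/
lemma key {I : AddSubgroup (Fn k)} (hI : Good I) {h0 : Fn k} (h0I : h0 ∈ I) (hne : h0 ≠ 0)
    {f : Fn k} {q : ℕ} (hf : Loc q f)
    (hT : ∀ r, (∃ i, f r i ≠ 0) → ∃ h ∈ I, ∃ i : ℤ, h r i ≠ 0)
    (hZ : Zt f → ∃ h ∈ I, Zt h) : f ∈ I := by
  classical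
  obtain ⟨L0, hL0⟩ := touch_data hI h0I hne (fun r => ∃ i, f r i ≠ 0) hT
  choose! hm hmI hmq hmi hmL hmne hmlo hmhi using hL0
  apply mem_of_cov hI hf
  set L : ℕ := L0 + 2 * q + 1 with hLdef
  set B : ℕ := Len L + 2 * L with hBdef
  -- the covered region
  have c1 : Cov I (fun r i => ∃ n ∈ Finset.range (L + 1), ∃ d ∈ Finset.Icc (-(B : ℤ)) B,
      ∃ hn : Row k n, (∃ i, f ⟨n, hn⟩ i ≠ 0) ∧ hm ⟨n, hn⟩ r (i + d) ≠ 0) := by
    apply cov_finset hI
    intro n _
    apply cov_finset hI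
    intro d _
    by_cases hn : ∃ hn : Row k n, ∃ i, f ⟨n, hn⟩ i ≠ 0
    · obtain ⟨hn, hn2⟩ := hn
      have : Cov I (fun r i => hm ⟨n, hn⟩ r i ≠ 0) := ⟨_, hmI _ hn2, fun r i h => h⟩
      refine cov_mono (cov_shift hI this d) ?_
      rintro r i ⟨_, _, h⟩
      exact h
    · exact cov_false I (fun r i ⟨hn', hn2, _⟩ => hn ⟨hn', hn2⟩)
  have c2 : Cov I (fun r i => Zt f ∧ ∀ d : ℤ, |d| ≤ q → ¬ On k r.1 (i + d)) := by
    by_cases hz : Zt f
    · obtain ⟨h, hh, qz, hqz⟩ := hZ hz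
      obtain ⟨Bz, hBz⟩ := exists_empty (k := k) qz
      have : Cov I (fun r i => ∃ d ∈ Finset.Icc (-(Bz : ℤ)) Bz, h r (i + d) ≠ 0) := by
        apply cov_finset hI
        intro d _
        exact cov_shift hI (P := fun r i => h r i ≠ 0) ⟨h, hh, fun r i h => h⟩ d
      refine cov_mono this ?_
      intro r i _
      obtain ⟨e, he, he2⟩ := hBz r i
      exact ⟨e, by rw [abs_le] at he; simpa using he, hqz r _ he2⟩
    · exact cov_false I (fun r i h => hz h.1)
  refine cov_mono (cov_or hI c1 c2) ?_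
  intro r i hfi
  by_cases hw : ∀ d : ℤ, |d| ≤ q → ¬ On k r.1 (i + d)
  · right
    refine ⟨⟨q, fun r' i' h' => ?_⟩, hw⟩
    rw [hf r' r i' i (fun d hd => by simp [h' d hd, hw d hd])]
    exact hfi
  · left
    push Not at hw
    obtain ⟨d0, hd0, hon⟩ := hw
    rw [abs_le] at hd0
    obtain ⟨m, c, hmL', hrow, hc, heq⟩ := cluster (k := k) (L := L) (by omega) r.1 _ hon
    have hr := on_mem_range _ _ hc
    have hmR : Row k m := hrow r.2
    have hLcast : (L : ℤ) = L0 + 2 * q + 1 := by rw [hLdef]; push_cast; ring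
    have hLen : (Len m : ℤ) ≤ (Len L : ℤ) := by exact_mod_cast Len_mono hmL'
    have hLm0 : (0 : ℤ) ≤ (Len m : ℤ) := by positivity
    have hL00 : (0 : ℤ) ≤ (L0 : ℤ) := by positivity
    have hq0 : (0 : ℤ) ≤ (q : ℤ) := by positivity
    have hfm : f ⟨m, hmR⟩ (i - c) ≠ 0 := by
      rw [hf ⟨m, hmR⟩ r (i - c) i]
      · exact hfi
      · intro d hd
        rw [abs_le] at hd
        simp only
        rw [heq (i + d) (by linarith) (by linarith)]
        rw [show i + d - c = i - c + d by ring]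
    have hTm : ∃ i, f ⟨m, hmR⟩ i ≠ 0 := ⟨_, hfm⟩
    have e1 := hmlo _ hTm
    have e2 := hmhi _ hTm
    simp only at e2
    have hq1 : (0 : ℤ) ≤ (hmq ⟨m, hmR⟩ : ℤ) := by positivity
    refine ⟨m, Finset.mem_range.2 (by omega), c + hmi ⟨m, hmR⟩ - i, ?_, hmR, hTm, ?_⟩
    · rw [Finset.mem_Icc, hBdef]
      push_cast
      constructor <;> linarith
    · rw [show i + (c + hmi ⟨m, hmR⟩ - i) = c + hmi ⟨m, hmR⟩ by ring]
      rw [hmL _ hTm r ⟨m, hmR⟩ _ (hmi ⟨m, hmR⟩)]
      · exact hmne _ hTm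
      · intro d hd
        rw [abs_le] at hd
        simp only
        rw [heq _ (by linarith) (by linarith)]
        rw [show c + hmi ⟨m, hmR⟩ + d - c = hmi ⟨m, hmR⟩ + d by ring]

/-- ascending chains of good families stabilise -/
lemma chainI (I : ℕ → AddSubgroup (Fn k)) (hI : ∀ n, Good (I n)) (hmono : Monotone I) :
    ∃ N, ∀ j, N ≤ j → I j = I N := by
  classical
  by_cases hall : ∀ n, I n = ⊥
  · exact ⟨0, fun j _ => by rw [hall, hall]⟩
  push Not at hall
  obtain ⟨N0, hN0⟩ := hall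
  obtain ⟨h0, h0I, hne⟩ : ∃ h0 ∈ I N0, h0 ≠ 0 := by
    by_contra hcon
    push Not at hcon
    exact hN0 ((AddSubgroup.eq_bot_iff_forall _).2 hcon)
  obtain ⟨q0, hq0⟩ := (hI N0).loc h0 h0I
  obtain ⟨r0, i0, h00⟩ : ∃ r i, h0 r i ≠ 0 := by
    by_contra hcon
    push Not at hcon
    exact hne (funext fun r => funext fun i => hcon r i)
  obtain ⟨n0, g0, hlarge⟩ := touch_large hq0 h00
  let S : ℕ →o Set (Option (Fin n0)) :=
    { toFun := fun n => {x | (x = none ∧ ∃ h ∈ I n, Zt h) ∨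
        ∃ m : Fin n0, x = some m ∧ ∃ hr : Row k m, ∃ h ∈ I n, ∃ i : ℤ, h ⟨m, hr⟩ i ≠ 0}
      monotone' := by
        intro a b hab x hx
        rcases hx with ⟨hx, h, hh, hz⟩ | ⟨m, hx, hr, h, hh, hi⟩
        · exact Or.inl ⟨hx, h, hmono hab hh, hz⟩
        · exact Or.inr ⟨m, hx, hr, h, hmono hab hh, hi⟩ }
  obtain ⟨N1, hN1⟩ := WellFoundedGT.monotone_chain_condition S
  refine ⟨max N0 N1, fun j hj => le_antisymm ?_ (hmono hj)⟩
  intro f hf
  obtain ⟨q, hq⟩ := (hI j).loc f hf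
  have hSj : S j = S (max N0 N1) := by
    rw [← hN1 j (le_trans (le_max_right _ _) hj), ← hN1 _ (le_max_right _ _)]
  refine key (hI _) (hmono (le_max_left _ _) h0I) hne hq ?_ ?_
  · rintro ⟨r, hr⟩ hi
    by_cases hrn : n0 ≤ r
    · obtain ⟨i, hi, _⟩ := hlarge ⟨r, hr⟩ hrn
      exact ⟨h0, hmono (le_max_left _ _) h0I, i, hi⟩
    · have h1 : some (⟨r, by omega⟩ : Fin n0) ∈ S j :=
        Or.inr ⟨⟨r, by omega⟩, rfl, hr, f, hf, hi⟩
      rw [hSj] at h1
      rcases h1 with ⟨h1, _⟩ | ⟨m, hm, hr', h, hh, hi'⟩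
      · cases h1
      · simp only [Option.some.injEq] at hm
        subst hm
        exact ⟨h, hh, hi'⟩
  · intro hz
    have h1 : (none : Option (Fin n0)) ∈ S j := Or.inl ⟨rfl, f, hf, hz⟩
    rw [hSj] at h1
    rcases h1 with ⟨_, h⟩ | ⟨m, hm, _⟩
    · exact h
    · cases hm

end Pool.Agent.MaxN
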