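import Pool.Agent.MP_8260ef_al.Loc

set_option autoImplicit false

open Polynomial

namespace Pool.Agent.MaxN

variable {k : ℕ → ℕ}

/-- sign functions -/
abbrev Sn (k : ℕ → ℕ) : Type := Idx k → ℤ → ZMod 2

/-- shift of sign functions -/
def shz (n : ℤ) (e : Sn k) : Sn k := fun r i => e r (i + n)

/-- shift by one as a linear map -/
def S1 (k : ℕ → ℕ) : Module.End (ZMod 2) (Sn k) where
  toFun e := shz 1 e
  map_add' _ _ := rfl
  map_smul' _ _ := rfl

/-- evaluation of polynomials at the mark indicator -/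
noncomputable def pv (k : ℕ → ℕ) (p : (ZMod 2)[X]) : Sn k := aeval (S1 k) p (chi2 k)

lemma pv_add (p q : (ZMod 2)[X]) : pv k (p + q) = pv k p + pv k q := by
  simp [pv]

lemma shz_add (n : ℤ) (e e' : Sn k) : shz n (e + e') = shz n e + shz n e' := rfl

lemma shz_shz (n m : ℤ) (e : Sn k) : shz n (shz m e) = shz (n + m) e := by
  funext r i
  simp only [shz]
  rw [add_assoc]

lemma shz_zero (e : Sn k) : shz 0 e = e := by
  funext r i
  simp [shz]

lemma pv_X_pow (n : ℕ) (p : (ZMod 2)[X]) : pv k (X ^ n * p) = shz n (pv k p) := by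
  induction n with
  | zero => simp [shz_zero]
  | succ n ih =>
    have : pv k (X ^ (n + 1) * p) = S1 k (pv k (X ^ n * p)) := by
      unfold pv
      rw [pow_succ', mul_assoc, map_mul, aeval_X]
      rfl
    rw [this, ih]
    change shz 1 (shz n (pv k p)) = _
    rw [shz_shz]
    congr 1
    push_cast; ring

/-- the signs occurring in the group -/
def SG (k : ℕ → ℕ) (e : Sn k) : Prop := ∃ N : ℕ, ∃ p : (ZMod 2)[X], shz N e = pv k p

lemma SG_shz {e : Sn k} (h : SG k e) (n : ℤ) : SG k (shz n e) := by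
  obtain ⟨N, p, hp⟩ := h
  refine ⟨N + n.natAbs, X ^ (n + n.natAbs).toNat * p, ?_⟩
  have h1 : 0 ≤ n + n.natAbs := by omega
  rw [pv_X_pow, ← hp, shz_shz, shz_shz, Int.toNat_of_nonneg h1]
  congr 1
  push_cast; ring

lemma SG_add {e e' : Sn k} (h : SG k e) (h' : SG k e') : SG k (e + e') := by
  obtain ⟨N, p, hp⟩ := h
  obtain ⟨N', p', hp'⟩ := h'
  refine ⟨N + N', X ^ N' * p + X ^ N * p', ?_⟩
  rw [pv_add, pv_X_pow, pv_X_pow, ← hp, ← hp', shz_shz, shz_shz, shz_add]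
  congr 2
  push_cast; ring

lemma SG_zero : SG k 0 := ⟨0, 0, by rw [show (0 : (ZMod 2)[X]) = 0 from rfl]; simp [pv]; rfl⟩

lemma SG_chi : SG k (chi2 k) := ⟨0, 1, by simp [pv, shz_zero]⟩

/-- local elements of `Aff` -/
def LocEl (k : ℕ → ℕ) (g : Aff (Idx k)) : Prop :=
  ∃ q : ℕ, ∀ (r r' : Idx k) (i i' : ℤ),
    (∀ d : ℤ, |d| ≤ q → (On k r.1 (i + d) ↔ On k r'.1 (i' + d))) →
      g.sg r i = g.sg r' i' ∧ g.tr r i = g.tr r' i'

lemma LocEl.mul {g h : Aff (Idx k)} (hg : LocEl k g) (hh : LocEl k h) : LocEl k (g * h) := by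
  obtain ⟨q, hq⟩ := hg
  obtain ⟨q', hq'⟩ := hh
  refine ⟨q + h.sh.natAbs + q', fun r r' i i' hw => ?_⟩
  have e1 := hq r r' (i + h.sh) (i' + h.sh) (fun d hd => by
    have := hw (h.sh + d) (by
      rw [abs_le] at hd ⊢
      rw [Int.natCast_add, Int.natCast_add]
      constructor <;> omega)
    rw [show i + h.sh + d = i + (h.sh + d) by ring, show i' + h.sh + d = i' + (h.sh + d) by ring]
    exact this)
  have e2 := hq' r r' i i' (fun d hd => hw d (by
      rw [abs_le] at hd ⊢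
      rw [Int.natCast_add, Int.natCast_add]
      constructor <;> omega))
  simp only [Aff.mul_sg, Aff.mul_tr]
  rw [e1.1, e1.2, e2.1, e2.2]
  exact ⟨rfl, rfl⟩

lemma LocEl.inv {g : Aff (Idx k)} (hg : LocEl k g) : LocEl k g⁻¹ := by
  obtain ⟨q, hq⟩ := hg
  refine ⟨q + g.sh.natAbs, fun r r' i i' hw => ?_⟩
  have e1 := hq r r' (i - g.sh) (i' - g.sh) (fun d hd => by
    have := hw (-g.sh + d) (by
      rw [abs_le] at hd ⊢
      rw [Int.natCast_add]
      constructor <;> omega)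
    rw [show i - g.sh + d = i + (-g.sh + d) by ring, show i' - g.sh + d = i' + (-g.sh + d) by ring]
    exact this)
  simp only [Aff.inv_sg, Aff.inv_tr]
  rw [e1.1, e1.2]
  exact ⟨rfl, rfl⟩

lemma LocEl.one : LocEl k (1 : Aff (Idx k)) := ⟨0, fun _ _ _ _ _ => ⟨rfl, rfl⟩⟩

lemma locEl_gens (j : Fin 3) : LocEl k (gens k j) := by
  fin_cases j
  · exact ⟨0, fun _ _ _ _ _ => ⟨rfl, rfl⟩⟩
  · refine ⟨0, fun r r' i i' hw => ⟨?_, rfl⟩⟩
    have := hw 0 (by simp)
    simp only [add_zero] at this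
    change chi2 k r i = chi2 k r' i'
    unfold chi2
    by_cases h : On k r.1 i
    · rw [if_pos h, if_pos (this.1 h)]
    · rw [if_neg h, if_neg (fun h' => h (this.2 h'))]
  · exact ⟨0, fun _ _ _ _ _ => ⟨rfl, rfl⟩⟩

lemma phi_ind (P : Aff (Idx k) → Prop) (h1 : P 1) (hg : ∀ j, P (gens k j))
    (hi : ∀ g, P g → P g⁻¹) (hm : ∀ g h, P g → P h → P (g * h)) :
    ∀ g ∈ (phi k).range, P g := by
  rintro g ⟨w, rfl⟩
  induction w using FreeGroup.induction_on with
  | C1 => rw [map_one]; exact h1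
  | of x => simpa [phi] using hg x
  | inv_of x ih => rw [map_inv]; exact hi _ ih
  | mul x y hx hy => rw [map_mul]; exact hm _ _ hx hy

lemma locEl_of_mem : ∀ g ∈ (phi k).range, LocEl k g :=
  phi_ind _ LocEl.one locEl_gens (fun _ h => h.inv) (fun _ _ h h' => h.mul h')

lemma SG_of_mem : ∀ g ∈ (phi k).range, SG k g.sg := by
  apply phi_ind
  · exact SG_zero
  · intro j
    fin_cases j
    · exact SG_zero
    · exact SG_chi
    · exact SG_zero
  · intro g h
    exact SG_shz h (-g.sh)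
  · intro g h hg hh
    exact SG_add (SG_shz hg h.sh) hh

/-- translation part of a subgroup -/
def IK (K : Subgroup (Aff (Idx k))) : AddSubgroup (Fn k) where
  carrier := {f | Aff.T f ∈ K}
  add_mem' := by
    intro a b ha hb
    have := K.mul_mem ha hb
    rwa [Aff.T_mul] at this
  zero_mem' := K.one_mem
  neg_mem' := by
    intro a ha
    have := K.inv_mem ha
    rwa [Aff.T_inv] at this

lemma gT_mem : gT k ∈ (phi k).range := ⟨FreeGroup.of 2, by simp [phi, gens]⟩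
lemma gA_mem : gA k ∈ (phi k).range := ⟨FreeGroup.of 1, by simp [phi, gens]⟩

lemma gAj_mem (j : ℤ) : gAj k j ∈ (phi k).range := by
  rw [← conj_gA]
  exact mul_mem (mul_mem (zpow_mem gT_mem _) gA_mem) (zpow_mem gT_mem _)

/-- normalised by the group -/
def Nrm (K : Subgroup (Aff (Idx k))) : Prop :=
  ∀ g ∈ (phi k).range, ∀ x ∈ K, g * x * g⁻¹ ∈ K

lemma IK_good {K : Subgroup (Aff (Idx k))} (hK : K ≤ (phi k).range) (hN : Nrm K) :
    Good (IK K) where
  shift := by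
    intro f hf d
    have h1 := hN _ (zpow_mem gT_mem (-d)) _ hf
    rw [Aff.conj_T] at h1
    change Aff.T _ ∈ K
    convert h1 using 2
    funext r i
    simp [gT_zpow, sgn_zero]
  chi := by
    intro f hf j
    have h1 := hN _ (gAj_mem j) _ hf
    rw [conj_gAj_T] at h1
    have h2 := K.mul_mem h1 (K.inv_mem hf)
    rw [Aff.T_inv, Aff.T_mul] at h2
    change Aff.T _ ∈ K
    convert h2 using 2
    funext r i
    simp only [Pi.add_apply, Pi.neg_apply]
    ring
  loc := by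
    intro f hf
    obtain ⟨q, hq⟩ := locEl_of_mem _ (hK hf)
    exact ⟨q, fun r r' i i' hw => (hq r r' i i' hw).2⟩

/-- sign polynomials of a subgroup -/
def PK (K : Subgroup (Aff (Idx k))) (hN : Nrm K) : Ideal (ZMod 2)[X] where
  carrier := {p | ∃ g ∈ K, g.sh = 0 ∧ g.sg = pv k p}
  add_mem' := by
    rintro a b ⟨g, hg, h0, h1⟩ ⟨g', hg', h0', h1'⟩
    refine ⟨g * g', K.mul_mem hg hg', by simp [h0, h0'], ?_⟩
    rw [pv_add, ← h1, ← h1']
    funext r i
    simp [h0']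
  zero_mem' := ⟨1, K.one_mem, rfl, by simp [pv]; rfl⟩
  smul_mem' := by
    intro c p hp
    have hadd : ∀ a b : (ZMod 2)[X], (∃ g ∈ K, g.sh = 0 ∧ g.sg = pv k a) →
        (∃ g ∈ K, g.sh = 0 ∧ g.sg = pv k b) → (∃ g ∈ K, g.sh = 0 ∧ g.sg = pv k (a + b)) := by
      rintro a b ⟨g, hg, h0, h1⟩ ⟨g', hg', h0', h1'⟩
      refine ⟨g * g', K.mul_mem hg hg', by simp [h0, h0'], ?_⟩
      rw [pv_add, ← h1, ← h1']
      funext r i
      simp [h0']
    have hX : ∀ n : ℕ, ∃ g ∈ K, g.sh = 0 ∧ g.sg = pv k (X ^ n * p) := by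
      intro n
      obtain ⟨g, hg, h0, h1⟩ := hp
      refine ⟨gT k ^ (-(n : ℤ)) * g * (gT k ^ (-(n : ℤ)))⁻¹, hN _ (zpow_mem gT_mem _) _ hg, ?_, ?_⟩
      · simp [h0]
      · rw [pv_X_pow, ← h1, gT_zpow]
        funext r i
        simp [shz]
    change ∃ g ∈ K, g.sh = 0 ∧ g.sg = pv k (c * p)
    induction c using Polynomial.induction_on' with
    | add a b ha hb =>
      rw [add_mul]
      exact hadd _ _ ha hb
    | monomial n a =>
      have ha : a = 0 ∨ a = 1 := by revert a; decide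
      rcases ha with rfl | rfl
      · simp only [map_zero, zero_mul]
        exact ⟨1, K.one_mem, rfl, by simp [pv]; rfl⟩
      · rw [monomial_one_right_eq_X_pow]
        exact hX n

/-- shifts of a subgroup -/
def CK (K : Subgroup (Aff (Idx k))) : Ideal ℤ where
  carrier := {n | ∃ g ∈ K, g.sh = n}
  add_mem' := by
    rintro a b ⟨g, hg, rfl⟩ ⟨g', hg', rfl⟩
    exact ⟨g * g', K.mul_mem hg hg', rfl⟩
  zero_mem' := ⟨1, K.one_mem, rfl⟩
  smul_mem' := by
    rintro c x ⟨g, hg, rfl⟩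
    refine ⟨g ^ c, K.zpow_mem hg c, ?_⟩
    simp only [smul_eq_mul]
    induction c using Int.induction_on with
    | zero => simp
    | succ n ih => rw [zpow_add_one, Aff.mul_sh, ih]; ring
    | pred n ih => rw [zpow_sub_one, Aff.mul_sh, Aff.inv_sh, ih]; ring

lemma eq_of_parts {K L : Subgroup (Aff (Idx k))} (hKL : K ≤ L) (hL : L ≤ (phi k).range)
    (hNK : Nrm K) (hNL : Nrm L) (hC : CK L ≤ CK K) (hP : PK L hNL ≤ PK K hNK)
    (hI : IK L ≤ IK K) : L ≤ K := by
  intro g hg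
  obtain ⟨h, hh, hsh⟩ := hC (show g.sh ∈ CK L from ⟨g, hg, rfl⟩)
  have h1 : h⁻¹ * g ∈ L := L.mul_mem (L.inv_mem (hKL hh)) hg
  have h2 : (h⁻¹ * g).sh = 0 := by simp [hsh]
  suffices hs : h⁻¹ * g ∈ K by
    have := K.mul_mem hh hs
    rwa [mul_inv_cancel_left] at this
  generalize h⁻¹ * g = x at h1 h2
  clear hg hsh hh
  obtain ⟨N, p, hp⟩ := SG_of_mem x (hL h1)
  have h3 : gT k ^ (-(N : ℤ)) * x * (gT k ^ (-(N : ℤ)))⁻¹ ∈ L := hNL _ (zpow_mem gT_mem _) _ h1
  have h4 : p ∈ PK L hNL := by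
    refine ⟨_, h3, ?_, ?_⟩
    · simp [h2]
    · rw [← hp, gT_zpow]
      funext r i
      simp [shz]
  obtain ⟨y, hy, hy0, hy1⟩ := hP h4
  have h5 : gT k ^ (N : ℤ) * y * (gT k ^ (N : ℤ))⁻¹ ∈ K := hNK _ (zpow_mem gT_mem _) _ hy
  have h6 : (gT k ^ (N : ℤ) * y * (gT k ^ (N : ℤ))⁻¹).sg = x.sg := by
    have : ∀ r i, y.sg r i = x.sg r (i + N) := by
      intro r i
      rw [hy1, ← hp]
      rfl
    funext r i
    simp only [gT_zpow, Aff.mul_sg, Aff.inv_sg, Aff.inv_sh, zero_add, this]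
    ring_nf
  have h7 : (gT k ^ (N : ℤ) * y * (gT k ^ (N : ℤ))⁻¹).sh = 0 := by simp [hy0]
  generalize gT k ^ (N : ℤ) * y * (gT k ^ (N : ℤ))⁻¹ = z at h5 h6 h7
  have h8 : z⁻¹ * x ∈ L := L.mul_mem (L.inv_mem (hKL h5)) h1
  have h9 : z⁻¹ * x = Aff.T (z⁻¹ * x).tr := by
    apply Aff.eq_of_sh_zero
    · simp [h7, h2]
    · intro r i
      simp only [Aff.mul_sg, Aff.inv_sg, h7, h2, h6, add_zero, sub_zero]
      have : ∀ x : ZMod 2, x + x = 0 := by decide
      exact this _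
  have h10 : (z⁻¹ * x).tr ∈ IK K := hI (by change Aff.T _ ∈ L; rw [← h9]; exact h8)
  have h11 : z⁻¹ * x ∈ K := by rw [h9]; exact h10
  have := K.mul_mem h5 h11
  rwa [mul_inv_cancel_left] at this

/-- max-n -/
lemma maxn (f : ℕ → Subgroup (PresentedGroup (Rel k))) (hf : ∀ i, (f i).Normal)
    (hm : Monotone f) : ∃ n, ∀ j, n ≤ j → f j = f n := by
  have hle : ∀ n, (f n).map (psi k) ≤ (phi k).range := by
    intro n
    rw [← psi_range]
    rintro _ ⟨y, _, rfl⟩
    exact ⟨y, rfl⟩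
  have hN : ∀ n, Nrm ((f n).map (psi k)) := by
    rintro n g hg x ⟨y, hy, rfl⟩
    rw [← psi_range] at hg
    obtain ⟨z, rfl⟩ := hg
    exact ⟨z * y * z⁻¹, (hf n).conj_mem y hy z, by simp⟩
  have hmono : Monotone fun n => (f n).map (psi k) := fun a b hab => Subgroup.map_mono (hm hab)
  obtain ⟨N1, h1⟩ := chainI (fun n => IK ((f n).map (psi k))) (fun n => IK_good (hle n) (hN n))
    (fun a b hab x hx => hmono hab hx)
  obtain ⟨N2, h2⟩ := WellFoundedGT.monotone_chain_condition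
    (⟨fun n => CK ((f n).map (psi k)), fun a b hab x ⟨g, hg, h⟩ => ⟨g, hmono hab hg, h⟩⟩ :
      ℕ →o Ideal ℤ)
  obtain ⟨N3, h3⟩ := WellFoundedGT.monotone_chain_condition
    (⟨fun n => PK ((f n).map (psi k)) (hN n), fun a b hab x ⟨g, hg, h⟩ => ⟨g, hmono hab hg, h⟩⟩ :
      ℕ →o Ideal (ZMod 2)[X])
  refine ⟨max N1 (max N2 N3), fun j hj => ?_⟩
  have hj1 : N1 ≤ j := le_trans (le_max_left _ _) hj
  have hj2 : N2 ≤ j := le_trans (le_trans (le_max_left _ _) (le_max_right _ _)) hj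
  have hj3 : N3 ≤ j := le_trans (le_trans (le_max_right _ _) (le_max_right _ _)) hj
  have hM1 : N1 ≤ max N1 (max N2 N3) := le_max_left _ _
  have hM2 : N2 ≤ max N1 (max N2 N3) := le_trans (le_max_left _ _) (le_max_right _ _)
  have hM3 : N3 ≤ max N1 (max N2 N3) := le_trans (le_max_right _ _) (le_max_right _ _)
  apply le_antisymm _ (hm hj)
  rw [← Subgroup.map_le_map_iff_of_injective (psi_inj k)]
  refine eq_of_parts (hmono hj) (hle j) (hN _) (hN _) ?_ ?_ ?_
  · have e1 := h2 j hj2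
    have e2 := h2 _ hM2
    rw [e1] at e2
    exact le_of_eq e2
  · have e1 := h3 j hj3
    have e2 := h3 _ hM3
    rw [e1] at e2
    exact le_of_eq e2
  · have e1 := h1 j hj1
    have e2 := h1 _ hM1
    rw [← e2] at e1
    exact le_of_eq e1

end Pool.Agent.MaxN
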