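import Mathlib

set_option autoImplicit false

namespace Pool.Agent.MaxN

/-- scales -/
def E : ℕ → ℕ
  | 0 => 1
  | s + 1 => 3 * ((s + 1) * E s)

/-- length of the row with index `s + 1` -/
def D (s : ℕ) : ℕ := (s + 1) * E s

lemma E_succ (s : ℕ) : E (s + 1) = 3 * D s := rfl

lemma E_pos (s : ℕ) : 0 < E s := by
  induction s with
  | zero => simp [E]
  | succ s ih => simp only [E]; positivity

lemma D_pos (s : ℕ) : 0 < D s := by
  have := E_pos s
  unfold D; positivity

lemma E_le_D (s : ℕ) : E s ≤ D s := by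
  unfold D; nlinarith [E_pos s]

lemma three_E_le (s : ℕ) : 3 * E s ≤ E (s + 1) := by
  rw [E_succ]; have := E_le_D s; omega

lemma E_mono : Monotone E := by
  apply monotone_nat_of_le_succ
  intro n
  have := three_E_le n
  omega

lemma D_le_of_lt {r s : ℕ} (h : r < s) : 3 * D r ≤ E s := by
  rw [← E_succ]; exact E_mono h

lemma D_mono : Monotone D := by
  intro a b h
  unfold D
  exact Nat.mul_le_mul (by omega) (E_mono h)

lemma lt_E (s : ℕ) : s < E s := by
  induction s with
  | zero => simp [E]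
  | succ s ih =>
    have := three_E_le s
    omega

lemma three_le_E {s : ℕ} (h : 1 ≤ s) : 3 * s ≤ E s := by
  obtain ⟨t, rfl⟩ : ∃ t, s = t + 1 := ⟨s - 1, by omega⟩
  rw [E_succ]
  have := D_mono (Nat.zero_le t)
  have h2 := E_pos t
  have : t + 1 ≤ D t := by unfold D; nlinarith
  omega

/-- largest position of row `n` -/
def Len : ℕ → ℕ
  | 0 => 0
  | s + 1 => D s

lemma three_Len_le {m s : ℕ} (h : m ≤ s) : 3 * Len m ≤ E s := by
  cases m with
  | zero => simp [Len]
  | succ r => exact D_le_of_lt (by omega)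

lemma Len_mono : Monotone Len := by
  apply monotone_nat_of_le_succ
  intro n
  cases n with
  | zero => simp [Len]
  | succ n => exact D_mono (by omega)

variable (k : ℕ → ℕ)

/-- `r` is a predecessor of `s` -/
def Pre (r s : ℕ) : Prop := r < s ∧ ∀ u, r < u → u ≤ s → k r < k u

/-- true stages of the enumeration `k` -/
def Tr (s : ℕ) : Prop := ∀ u, s < u → k s < k u

/-- rows which are present in the system -/
def Row (n : ℕ) : Prop := n = 0 ∨ ∃ s, n = s + 1 ∧ Tr k s

/-- pieces of the row `s + 1`: at offset `j * E s` there is a copy of row `m` -/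
def Pc (s j m : ℕ) : Prop :=
  (j = 0 ∧ m = 0) ∨ (j = s + 1 ∧ m = 0) ∨ (m = j ∧ ∃ r, j = r + 1 ∧ Pre k r s)

/-- positions of the marks of row `n` -/
def On : ℕ → ℤ → Prop
  | 0, x => x = 0
  | s + 1, x => x = 0 ∨ x = (D s : ℤ) ∨
      ∃ r, ∃ _ : r < s, Pre k r s ∧ On (r + 1) (x - ((r : ℤ) + 1) * (E s : ℤ))
termination_by n => n

variable {k}

lemma on_zero_iff (x : ℤ) : On k 0 x ↔ x = 0 := by rw [On]

lemma on_succ (s : ℕ) (x : ℤ) : On k (s + 1) x ↔
    ∃ j m, Pc k s j m ∧ On k m (x - (j : ℤ) * (E s : ℤ)) := by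
  rw [On]
  constructor
  · rintro (h | h | ⟨r, hr, hP, h⟩)
    · exact ⟨0, 0, Or.inl ⟨rfl, rfl⟩, by rw [on_zero_iff]; simp [h]⟩
    · refine ⟨s + 1, 0, Or.inr (Or.inl ⟨rfl, rfl⟩), ?_⟩
      rw [on_zero_iff, h, D]; push_cast; ring
    · refine ⟨r + 1, r + 1, Or.inr (Or.inr ⟨rfl, r, rfl, hP⟩), ?_⟩
      push_cast; exact h
  · rintro ⟨j, m, (⟨rfl, rfl⟩ | ⟨rfl, rfl⟩ | ⟨rfl, r, rfl, hP⟩), h⟩
    · left; rw [on_zero_iff] at h; simpa using h
    · right; left
      rw [on_zero_iff] at h
      have : x = ((s + 1 : ℕ) : ℤ) * (E s : ℤ) := by linarith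
      rw [this, D]; push_cast; ring
    · right; right
      exact ⟨r, hP.1, hP, by push_cast at h; exact h⟩

lemma Pc.j_le {s j m : ℕ} (h : Pc k s j m) : j ≤ s + 1 := by
  rcases h with ⟨rfl, _⟩ | ⟨rfl, _⟩ | ⟨rfl, r, rfl, hP⟩
  · omega
  · omega
  · have := hP.1; omega

lemma Pc.m_le {s j m : ℕ} (h : Pc k s j m) : m ≤ s := by
  rcases h with ⟨_, rfl⟩ | ⟨_, rfl⟩ | ⟨rfl, r, rfl, hP⟩
  · omega
  · omega
  · have := hP.1; omega

lemma Pc.unique {s j m m' : ℕ} (h : Pc k s j m) (h' : Pc k s j m') : m = m' := by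
  rcases h with ⟨h1, h2⟩ | ⟨h1, h2⟩ | ⟨h1, r, h2, hP⟩ <;>
  rcases h' with ⟨h1', h2'⟩ | ⟨h1', h2'⟩ | ⟨h1', r', h2', hP'⟩
  · omega
  · omega
  · omega
  · omega
  · omega
  · have := hP'.1; omega
  · omega
  · have := hP.1; omega
  · omega

lemma Pc.row {s j m : ℕ} (h : Pc k s j m) (hs : Tr k s) : Row k m := by
  rcases h with ⟨_, rfl⟩ | ⟨_, rfl⟩ | ⟨rfl, r, rfl, hP⟩
  · exact Or.inl rfl
  · exact Or.inl rfl
  · refine Or.inr ⟨r, rfl, fun u hu => ?_⟩
    by_cases hus : u ≤ s
    · exact hP.2 u hu hus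
    · exact lt_trans (hP.2 s hP.1 le_rfl) (hs u (by omega))

lemma Row.tr {s : ℕ} (h : Row k (s + 1)) : Tr k s := by
  rcases h with h | ⟨t, h, ht⟩
  · omega
  · have : s = t := by omega
    subst this; exact ht

lemma on_mem_range : ∀ (n : ℕ) (x : ℤ), On k n x → 0 ≤ x ∧ x ≤ (Len n : ℤ) := by
  intro n
  induction n using Nat.strong_induction_on with
  | _ n ih =>
    intro x hx
    cases n with
    | zero => rw [on_zero_iff] at hx; simp [hx, Len]
    | succ s =>
      rw [on_succ] at hx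
      obtain ⟨j, m, hP, h⟩ := hx
      obtain ⟨h0, h1⟩ := ih m (by have := hP.m_le; omega) _ h
      have hE := E_pos s
      constructor
      · have : (0 : ℤ) ≤ (j : ℤ) * (E s : ℤ) := by positivity
        linarith
      · rcases hP with ⟨rfl, rfl⟩ | ⟨rfl, rfl⟩ | ⟨rfl, r, rfl, hPr⟩
        · simp only [Len] at h1 ⊢
          have := D_pos s
          push_cast at h1 ⊢
          have : (0 : ℤ) < (D s : ℤ) := by exact_mod_cast this
          linarith
        · simp only [Len, D] at h1 ⊢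
          push_cast at h1 ⊢
          linarith
        · have h2 := D_le_of_lt hPr.1
          have h3 := hPr.1
          simp only [Len] at h1 ⊢
          have h4 : D s = (s + 1) * E s := rfl
          rw [h4]
          push_cast at h1 ⊢
          have h5 : ((r : ℤ) + 1) * (E s : ℤ) ≤ (s : ℤ) * (E s : ℤ) := by
            have : (r : ℤ) + 1 ≤ s := by exact_mod_cast h3
            have : (0 : ℤ) ≤ (E s : ℤ) := by positivity
            nlinarith
          have h6 : (3 : ℤ) * (D r : ℤ) ≤ (E s : ℤ) := by exact_mod_cast h2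
          have h7 : (0 : ℤ) ≤ (D r : ℤ) := by positivity
          linarith

lemma on_left (n : ℕ) : On k n 0 := by
  cases n with
  | zero => rw [on_zero_iff]
  | succ s => rw [on_succ]; exact ⟨0, 0, Or.inl ⟨rfl, rfl⟩, by rw [on_zero_iff]; simp⟩

lemma on_right (n : ℕ) : On k n (Len n : ℤ) := by
  cases n with
  | zero => rw [on_zero_iff]; simp [Len]
  | succ s =>
    rw [on_succ]
    refine ⟨s + 1, 0, Or.inr (Or.inl ⟨rfl, rfl⟩), ?_⟩
    rw [on_zero_iff, Len, D]; push_cast; ring

/-- a piece of a row is isolated -/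
lemma iso {s j m : ℕ} (hP : Pc k s j m) {g : ℤ} (hg : 3 * g < 2 * (E s : ℤ)) {y : ℤ}
    (h1 : (j : ℤ) * (E s : ℤ) - g ≤ y) (h2 : y ≤ (j : ℤ) * (E s : ℤ) + (Len m : ℤ) + g) :
    On k (s + 1) y ↔ On k m (y - (j : ℤ) * (E s : ℤ)) := by
  constructor
  · intro h
    rw [on_succ] at h
    obtain ⟨j', m', hP', h'⟩ := h
    have hr := on_mem_range _ _ h'
    have hL' : (3 : ℤ) * (Len m' : ℤ) ≤ (E s : ℤ) := by exact_mod_cast three_Len_le hP'.m_le
    have hL : (3 : ℤ) * (Len m : ℤ) ≤ (E s : ℤ) := by exact_mod_cast three_Len_le hP.m_le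
    have hE : (0 : ℤ) < (E s : ℤ) := by exact_mod_cast E_pos s
    have hjj : j' = j := by
      by_contra hne
      rcases lt_or_gt_of_ne hne with hlt | hgt
      · have h3 : (j' : ℤ) + 1 ≤ j := by exact_mod_cast hlt
        have h4 : ((j' : ℤ) + 1) * (E s : ℤ) ≤ (j : ℤ) * (E s : ℤ) := by nlinarith
        nlinarith [hr.1, hr.2]
      · have h3 : (j : ℤ) + 1 ≤ j' := by exact_mod_cast hgt
        have h4 : ((j : ℤ) + 1) * (E s : ℤ) ≤ (j' : ℤ) * (E s : ℤ) := by nlinarith
        nlinarith [hr.1, hr.2]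
    subst hjj
    have := hP.unique hP'
    subst this
    exact h'
  · intro h
    rw [on_succ]
    exact ⟨j, m, hP, h⟩

/-- every mark of a row lies in an isolated copy of a short row -/
lemma cluster {L : ℕ} (hL : 1 ≤ L) : ∀ (n : ℕ) (x : ℤ), On k n x →
    ∃ m : ℕ, ∃ c : ℤ, m ≤ L ∧ (Row k n → Row k m) ∧ On k m (x - c) ∧
      ∀ y : ℤ, c - L ≤ y → y ≤ c + (Len m : ℤ) + L → (On k n y ↔ On k m (y - c)) := by
  intro n
  induction n using Nat.strong_induction_on with
  | _ n ih =>
    intro x hx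
    by_cases hn : n ≤ L
    · exact ⟨n, 0, hn, id, by simpa using hx, fun y _ _ => by simp⟩
    · obtain ⟨s, rfl⟩ : ∃ s, n = s + 1 := ⟨n - 1, by omega⟩
      have hx' := hx
      rw [on_succ] at hx'
      obtain ⟨j, m', hP, h⟩ := hx'
      obtain ⟨m, c', hmL, hrow, hon, heq⟩ := ih m' (by have := hP.m_le; omega) _ h
      have hEs : (3 : ℤ) * (L : ℤ) < 2 * (E s : ℤ) := by
        have : 3 * s ≤ E s := three_le_E (by omega)
        have : 3 * L < 2 * E s := by omega
        exact_mod_cast this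
      -- bounds for c'
      have hc0 : 0 ≤ c' := by
        have h1 : On k m' c' := by
          rw [heq c' (by omega) (by have : (0 : ℤ) ≤ (Len m : ℤ) := by positivity
                                    omega)]
          simpa using on_left m
        exact (on_mem_range _ _ h1).1
      have hc1 : c' + (Len m : ℤ) ≤ (Len m' : ℤ) := by
        have h1 : On k m' (c' + (Len m : ℤ)) := by
          rw [heq _ (by have : (0 : ℤ) ≤ (Len m : ℤ) := by positivity
                        omega) (by omega)]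
          simpa using on_right m
        exact (on_mem_range _ _ h1).2
      refine ⟨m, c' + (j : ℤ) * (E s : ℤ), hmL, fun hR => hrow (hP.row hR.tr), ?_, ?_⟩
      · have : x - (c' + (j : ℤ) * (E s : ℤ)) = x - (j : ℤ) * (E s : ℤ) - c' := by ring
        rw [this]; exact hon
      · intro y hy1 hy2
        have e1 := iso hP (g := (L : ℤ)) hEs (y := y) (by linarith) (by linarith)
        rw [e1, heq (y - (j : ℤ) * (E s : ℤ)) (by linarith) (by linarith)]
        have : y - (j : ℤ) * (E s : ℤ) - c' = y - (c' + (j : ℤ) * (E s : ℤ)) := by ring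
        rw [this]

/-- longer rows contain copies of shorter rows -/
lemma exists_piece {s m : ℕ} (hm : Row k m) (hms : m ≤ s) : ∃ j, Pc k s j m := by
  rcases hm with rfl | ⟨r, rfl, hr⟩
  · exact ⟨0, Or.inl ⟨rfl, rfl⟩⟩
  · exact ⟨r + 1, Or.inr (Or.inr ⟨rfl, r, rfl, by omega, fun u hu _ => hr u hu⟩)⟩

/-- the distance `D s` occurs only if row `s + 1` is present -/
lemma dist_row (s : ℕ) : ∀ (n : ℕ) (x : ℤ), On k n x → On k n (x + (D s : ℤ)) →
    Row k n → Row k (s + 1) := by
  intro n
  induction n using Nat.strong_induction_on with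
  | _ n ih =>
    intro x hx hy hR
    cases n with
    | zero =>
      rw [on_zero_iff] at hx hy
      have := D_pos s
      have : (0 : ℤ) < (D s : ℤ) := by exact_mod_cast this
      omega
    | succ S =>
      have hx' := hx
      have hy' := hy
      rw [on_succ] at hx' hy'
      obtain ⟨j, m, hP, h⟩ := hx'
      obtain ⟨j', m', hP', h'⟩ := hy'
      have hr := on_mem_range _ _ h
      have hr' := on_mem_range _ _ h'
      have hL' : (3 : ℤ) * (Len m' : ℤ) ≤ (E S : ℤ) := by exact_mod_cast three_Len_le hP'.m_le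
      have hL : (3 : ℤ) * (Len m : ℤ) ≤ (E S : ℤ) := by exact_mod_cast three_Len_le hP.m_le
      have hE : (0 : ℤ) < (E S : ℤ) := by exact_mod_cast E_pos S
      have hD : (0 : ℤ) < (D s : ℤ) := by exact_mod_cast D_pos s
      by_cases hjj : j' = j
      · subst hjj
        have := hP.unique hP'
        subst this
        refine ih m (by have := hP.m_le; omega) _ h ?_ (hP.row hR.tr)
        have : x - (j' : ℤ) * (E S : ℤ) + (D s : ℤ) = x + (D s : ℤ) - (j' : ℤ) * (E S : ℤ) := by
          ring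
        rw [this]; exact h'
      · -- different pieces
        have hlt : j < j' := by
          by_contra hle
          have h3 : (j' : ℤ) + 1 ≤ j := by
            have : j' < j := by omega
            exact_mod_cast this
          have h4 : ((j' : ℤ) + 1) * (E S : ℤ) ≤ (j : ℤ) * (E S : ℤ) := by nlinarith
          nlinarith [hr.1, hr.2, hr'.1, hr'.2]
        have h3 : (j : ℤ) + 1 ≤ j' := by exact_mod_cast hlt
        have h4 : ((j : ℤ) + 1) * (E S : ℤ) ≤ (j' : ℤ) * (E S : ℤ) := by nlinarith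
        have hlow : 2 * (E S : ℤ) ≤ 3 * (D s : ℤ) := by nlinarith [hr.1, hr.2, hr'.1, hr'.2]
        have hup : 3 * (D s : ℤ) ≤ 3 * ((S : ℤ) + 1) * (E S : ℤ) + (E S : ℤ) := by
          have h5 : (j' : ℤ) ≤ (S : ℤ) + 1 := by exact_mod_cast hP'.j_le
          have h6 : (j' : ℤ) * (E S : ℤ) ≤ ((S : ℤ) + 1) * (E S : ℤ) := by nlinarith
          have h7 : (0 : ℤ) ≤ (j : ℤ) * (E S : ℤ) := by positivity
          nlinarith [hr.1, hr.2, hr'.1, hr'.2]
        have hsS : s = S := by
          by_contra hne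
          rcases lt_or_gt_of_ne hne with hlt' | hgt'
          · have := D_le_of_lt hlt'
            have : (3 : ℤ) * (D s : ℤ) ≤ (E S : ℤ) := by exact_mod_cast this
            linarith
          · have h8 : D (S + 1) ≤ D s := D_mono hgt'
            have h9 : D (S + 1) = (S + 2) * (3 * ((S + 1) * E S)) := rfl
            have h10 : ((S : ℤ) + 2) * (3 * (((S : ℤ) + 1) * (E S : ℤ))) ≤ (D s : ℤ) := by
              have : (S + 2) * (3 * ((S + 1) * E S)) ≤ D s := by rw [← h9]; exact h8
              exact_mod_cast this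
            have h11 : (0 : ℤ) ≤ (S : ℤ) := by positivity
            have h12 : (0 : ℤ) ≤ ((S : ℤ) + 1) * (E S : ℤ) := by positivity
            nlinarith [mul_nonneg h11 h12]
        subst hsS
        exact hR

end Pool.Agent.MaxN
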