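import Pool.Agent.MP_8260ef_al.Dec
import Pool.Agent.MP_8260ef_al.Grp

set_option autoImplicit false

namespace Pool.Agent.MaxN

variable (k : ℕ → ℕ)

/-- one letter acting on position and value -/
def stp (m off : ℕ) (a : Fin 3 × Bool) (st : ℕ × ℕ) : ℕ × ℕ :=
  if a.1 = 0 then (if a.2 = true then (st.1, st.2 + 1) else (st.1, st.2 + 2))
  else if a.1 = 1 then (if off ≤ st.1 ∧ onb k m (st.1 - off) then (st.1, 2 * st.2) else st)
  else (if a.2 = true then (st.1 + 1, st.2) else (st.1 - 1, st.2))

/-- a word acting on position and value -/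
def sim (m off : ℕ) (w : List (Fin 3 × Bool)) (st : ℕ × ℕ) : ℕ × ℕ := w.foldr (stp k m off) st

/-- test for a word at a stage -/
def chk (w : List (Fin 3 × Bool)) (s : ℕ) : Prop :=
  2 * w.length + 1 ≤ s ∧ ∀ m < s + 1, (m = 0 ∨ PreB k m s) →
    ∀ q < 3 * w.length + D s + 2, w.length ≤ q →
      ∀ v < 2, (sim k m (2 * w.length) w (q, v)).1 = q ∧
        (sim k m (2 * w.length) w (q, v)).2 % 3 = v

lemma stp_primrec {k : ℕ → ℕ} (hk : Primrec k) :
    Primrec (fun p : (ℕ × ℕ) × ((Fin 3 × Bool) × (ℕ × ℕ)) => stp k p.1.1 p.1.2 p.2.1 p.2.2) := by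
  unfold stp
  have hx : Primrec (fun p : (ℕ × ℕ) × ((Fin 3 × Bool) × (ℕ × ℕ)) => p.2.1.1) :=
    Primrec.fst.comp (Primrec.fst.comp Primrec.snd)
  have hb : Primrec (fun p : (ℕ × ℕ) × ((Fin 3 × Bool) × (ℕ × ℕ)) => p.2.1.2) :=
    Primrec.snd.comp (Primrec.fst.comp Primrec.snd)
  have hp : Primrec (fun p : (ℕ × ℕ) × ((Fin 3 × Bool) × (ℕ × ℕ)) => p.2.2.1) :=
    Primrec.fst.comp (Primrec.snd.comp Primrec.snd)
  have hv : Primrec (fun p : (ℕ × ℕ) × ((Fin 3 × Bool) × (ℕ × ℕ)) => p.2.2.2) :=
    Primrec.snd.comp (Primrec.snd.comp Primrec.snd)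
  have ho : Primrec (fun p : (ℕ × ℕ) × ((Fin 3 × Bool) × (ℕ × ℕ)) => p.1.2) :=
    Primrec.snd.comp Primrec.fst
  have hm : Primrec (fun p : (ℕ × ℕ) × ((Fin 3 × Bool) × (ℕ × ℕ)) => p.1.1) :=
    Primrec.fst.comp Primrec.fst
  apply Primrec.ite
  · exact Primrec.eq.comp hx (Primrec.const 0)
  · apply Primrec.ite
    · exact Primrec.eq.comp hb (Primrec.const true)
    · exact Primrec.pair hp (Primrec.nat_add.comp hv (Primrec.const 1))
    · exact Primrec.pair hp (Primrec.nat_add.comp hv (Primrec.const 2))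
  · apply Primrec.ite
    · exact Primrec.eq.comp hx (Primrec.const 1)
    · apply Primrec.ite
      · apply PrimrecPred.and
        · exact Primrec.nat_le.comp ho hp
        · exact (onb_primrec hk).comp hm (Primrec.nat_sub.comp hp ho)
      · exact Primrec.pair hp (Primrec.nat_mul.comp (Primrec.const 2) hv)
      · exact Primrec.snd.comp Primrec.snd
    · apply Primrec.ite
      · exact Primrec.eq.comp hb (Primrec.const true)
      · exact Primrec.pair (Primrec.nat_add.comp hp (Primrec.const 1)) hv
      · exact Primrec.pair (Primrec.nat_sub.comp hp (Primrec.const 1)) hv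

lemma sim_primrec {k : ℕ → ℕ} (hk : Primrec k) {α : Type} [Primcodable α] {m off : α → ℕ}
    {w : α → List (Fin 3 × Bool)} {st : α → ℕ × ℕ} (hm : Primrec m) (ho : Primrec off)
    (hw : Primrec w) (hs : Primrec st) :
    Primrec (fun a => sim k (m a) (off a) (w a) (st a)) := by
  unfold sim
  exact Primrec.list_foldr (h := fun a p => stp k (m a) (off a) p.1 p.2) hw hs
    ((stp_primrec hk).comp₂ (Primrec₂.pair.comp₂
      (Primrec₂.pair.comp₂ (hm.comp₂ Primrec₂.left) (ho.comp₂ Primrec₂.left)) Primrec₂.right))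

lemma primrecPred_imp {α : Type} [Primcodable α] {p q : α → Prop} (hp : PrimrecPred p)
    (hq : PrimrecPred q) : PrimrecPred (fun a => p a → q a) := by
  refine (hp.not.or hq).of_eq fun a => ?_
  rw [imp_iff_not_or]

lemma primrecPred_forall_lt {α : Type} [Primcodable α] {b : α → ℕ} {R : α → ℕ → Prop}
    (hb : Primrec b) (hR : PrimrecPred (fun p : α × ℕ => R p.1 p.2)) :
    PrimrecPred (fun a => ∀ x < b a, R a x) := by
  have h1 : PrimrecRel (fun (x : ℕ) (a : α) => R a x) :=
    (hR.comp (Primrec.pair Primrec.snd Primrec.fst) :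
      PrimrecPred (fun p : ℕ × α => R p.2 p.1)).primrecRel
  exact (h1.forall_mem_list.comp (Primrec.list_range.comp hb) (Primrec.id (α := α))).of_eq
    (by simp)

lemma chk_primrec {k : ℕ → ℕ} (hk : Primrec k) : PrimrecRel (chk k) := by
  have hmain : PrimrecPred (fun p : List (Fin 3 × Bool) × ℕ => chk k p.1 p.2) := by
    unfold chk
    have hlen : Primrec (fun p : List (Fin 3 × Bool) × ℕ => p.1.length) :=
      Primrec.list_length.comp Primrec.fst
    apply PrimrecPred.and
    · exact Primrec.nat_le.comp (Primrec.succ.comp (Primrec.nat_mul.comp (Primrec.const 2) hlen))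
        Primrec.snd
    · apply primrecPred_forall_lt (Primrec.succ.comp Primrec.snd)
      apply primrecPred_imp
      · apply PrimrecPred.or
        · exact Primrec.eq.comp Primrec.snd (Primrec.const 0)
        · exact (PreB_primrec hk).comp Primrec.snd (Primrec.snd.comp Primrec.fst)
      · apply primrecPred_forall_lt
        · exact Primrec.nat_add.comp (Primrec.nat_add.comp (Primrec.nat_mul.comp (Primrec.const 3)
            (hlen.comp Primrec.fst)) (D_primrec.comp (Primrec.snd.comp Primrec.fst)))
            (Primrec.const 2)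
        · apply primrecPred_imp
          · exact Primrec.nat_le.comp (hlen.comp (Primrec.fst.comp Primrec.fst)) Primrec.snd
          · apply primrecPred_forall_lt (Primrec.const 2)
            have hs : Primrec (fun p : (((List (Fin 3 × Bool) × ℕ) × ℕ) × ℕ) × ℕ =>
                sim k p.1.1.2 (2 * p.1.1.1.1.length) p.1.1.1.1 (p.1.2, p.2)) := by
              apply sim_primrec hk
              · exact Primrec.snd.comp (Primrec.fst.comp Primrec.fst)
              · exact Primrec.nat_mul.comp (Primrec.const 2)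
                  (hlen.comp (Primrec.fst.comp (Primrec.fst.comp Primrec.fst)))
              · exact Primrec.fst.comp (Primrec.fst.comp (Primrec.fst.comp Primrec.fst))
              · exact Primrec.pair (Primrec.snd.comp Primrec.fst) Primrec.snd
            apply PrimrecPred.and
            · exact Primrec.eq.comp (Primrec.fst.comp hs) (Primrec.snd.comp Primrec.fst)
            · exact Primrec.eq.comp (Primrec.nat_mod.comp (Primrec.snd.comp hs)
                (Primrec.const 3)) Primrec.snd
  exact hmain.primrecRel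

lemma re_of_exists {α : Type} [Primcodable α] {P : α → ℕ → Prop} (hP : PrimrecRel P) :
    REPred fun a => ∃ n, P a n := by
  classical
  have h : Partrec fun a => Nat.rfind fun n => Part.some (decide (P a n)) :=
    Partrec.rfind hP.decide.to_comp.partrec
  refine h.dom_re.of_eq fun a => ?_
  have h1 := @Nat.rfind_dom (fun n => Part.some (decide (P a n)))
  refine h1.trans ?_
  simp

variable {k}

/-- image of one letter -/
noncomputable def lt (k : ℕ → ℕ) (a : Fin 3 × Bool) : Aff (Idx k) := phi k (FreeGroup.mk [a])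

lemma lt_eq (a : Fin 3 × Bool) : lt k a = if a.2 = true then gens k a.1 else (gens k a.1)⁻¹ := by
  obtain ⟨x, b⟩ := a
  cases b
  · simp [lt, phi]
  · simp [lt, phi]

lemma phi_cons (a : Fin 3 × Bool) (w : List (Fin 3 × Bool)) :
    phi k (FreeGroup.mk (a :: w)) = lt k a * phi k (FreeGroup.mk w) := by
  rw [lt, ← map_mul, FreeGroup.mul_mk, List.singleton_append]

lemma phi_nil : phi k (FreeGroup.mk []) = 1 := by
  rw [← FreeGroup.one_eq_mk, map_one]

lemma sim_cons (m off : ℕ) (a : Fin 3 × Bool) (w : List (Fin 3 × Bool)) (st : ℕ × ℕ) :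
    sim k m off (a :: w) st = stp k m off a (sim k m off w st) := rfl

/-- one letter -/
lemma stp_spec (r : Idx k) (off : ℕ) (a : Fin 3 × Bool) (p v : ℕ) (hp : 1 ≤ p) :
    ((stp k r.1 off a (p, v)).1 : ℤ) = p + (lt k a).sh ∧ p ≤ (stp k r.1 off a (p, v)).1 + 1 ∧
    ((stp k r.1 off a (p, v)).2 : ZMod 3) =
      sgn ((lt k a).sg r ((p : ℤ) - off)) * (v : ZMod 3) + (lt k a).tr r ((p : ℤ) - off) := by
  obtain ⟨x, b⟩ := a
  rw [lt_eq]
  have h2 : (2 : ZMod 3) = -1 := by decide
  fin_cases x
  · cases b
    · simp only [stp, gens, gE]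
      simp [sgn_zero]
      rw [h2]
    · simp only [stp, gens, gE]
      simp [sgn_zero]
  · have hon : (off ≤ p ∧ onb k r.1 (p - off)) ↔ On k r.1 ((p : ℤ) - off) := by
      constructor
      · rintro ⟨h1, h2⟩
        rw [onb_iff] at h2
        rwa [Nat.cast_sub h1] at h2
      · intro h
        have h1 : off ≤ p := by
          have := (on_mem_range _ _ h).1
          omega
        exact ⟨h1, by rw [onb_iff, Nat.cast_sub h1]; exact h⟩
    have hsg : ∀ b : Bool, (if b = true then gens k 1 else (gens k 1)⁻¹) = gA k := by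
      intro b
      cases b
      · simp only [Bool.false_eq_true, if_false]
        apply Aff.ext'
        · simp [gens, gA]
        · intro r i; simp [gens, gA]
        · intro r i; simp [gens, gA]
      · simp [gens]
    change ((stp k r.1 off (1, b) (p, v)).1 : ℤ) = p +
      (if b = true then gens k 1 else (gens k 1)⁻¹).sh ∧ _ ∧ _ =
      sgn ((if b = true then gens k 1 else (gens k 1)⁻¹).sg r ((p : ℤ) - off)) * (v : ZMod 3) +
        (if b = true then gens k 1 else (gens k 1)⁻¹).tr r ((p : ℤ) - off)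
    rw [hsg]
    by_cases h : On k r.1 ((p : ℤ) - off)
    · have h' := hon.2 h
      have e : stp k r.1 off (1, b) (p, v) = (p, 2 * v) := by
        unfold stp
        simp [h']
      change ((stp k r.1 off (1, b) (p, v)).1 : ℤ) = _ ∧ p ≤ (stp k r.1 off (1, b) (p, v)).1 + 1 ∧
        ((stp k r.1 off (1, b) (p, v)).2 : ZMod 3) = _
      rw [e]
      refine ⟨by simp [gA], by simp, ?_⟩
      simp only [gA, chi2, h, if_true, sgn_one]
      push_cast
      rw [h2]; ring
    · have h' : ¬ (off ≤ p ∧ onb k r.1 (p - off)) := fun h'' => h (hon.1 h'')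
      have e : stp k r.1 off (1, b) (p, v) = (p, v) := by
        unfold stp
        have h01 : ¬ ((1 : Fin 3) = 0) := by decide
        simp only [h01, if_false, if_true, h']
      change ((stp k r.1 off (1, b) (p, v)).1 : ℤ) = _ ∧ p ≤ (stp k r.1 off (1, b) (p, v)).1 + 1 ∧
        ((stp k r.1 off (1, b) (p, v)).2 : ZMod 3) = _
      rw [e]
      refine ⟨by simp [gA], by simp, ?_⟩
      simp only [gA, chi2, h, if_false, sgn_zero]
      ring
  · cases b
    · simp only [stp, gens, gT]
      simp [sgn_zero]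
      omega
    · simp only [stp, gens, gT]
      simp [sgn_zero]
      omega

/-- semantics of the simulation -/
lemma sim_spec (r : Idx k) (off : ℕ) (w : List (Fin 3 × Bool)) (p v : ℕ) (hp : w.length ≤ p) :
    ((sim k r.1 off w (p, v)).1 : ℤ) = p + (phi k (FreeGroup.mk w)).sh ∧
    p ≤ (sim k r.1 off w (p, v)).1 + w.length ∧
    ((sim k r.1 off w (p, v)).2 : ZMod 3) =
      sgn ((phi k (FreeGroup.mk w)).sg r ((p : ℤ) - off)) * (v : ZMod 3) +
        (phi k (FreeGroup.mk w)).tr r ((p : ℤ) - off) := by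
  induction w with
  | nil =>
    rw [phi_nil]
    simp [sim, sgn_zero]
  | cons a w ih =>
    simp only [List.length_cons] at hp ⊢
    obtain ⟨h1, h2, h3⟩ := ih (by omega)
    rw [sim_cons, phi_cons]
    obtain ⟨g1, g2, g3⟩ := stp_spec r off a (sim k r.1 off w (p, v)).1
      (sim k r.1 off w (p, v)).2 (by omega)
    simp only [Prod.mk.eta] at g1 g2 g3
    refine ⟨?_, by omega, ?_⟩
    · rw [g1, h1, Aff.mul_sh]; ring
    · rw [g3, h3, Aff.mul_sg, Aff.mul_tr, sgn_add, h1]
      rw [show (p : ℤ) + (phi k (FreeGroup.mk w)).sh - off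
        = (p : ℤ) - off + (phi k (FreeGroup.mk w)).sh by ring]
      ring

/-- locality -/
lemma phi_local (w : List (Fin 3 × Bool)) : |(phi k (FreeGroup.mk w)).sh| ≤ w.length ∧
    ∀ (r r' : Idx k) (i i' : ℤ),
      (∀ d : ℤ, |d| ≤ w.length → (On k r.1 (i + d) ↔ On k r'.1 (i' + d))) →
        (phi k (FreeGroup.mk w)).sg r i = (phi k (FreeGroup.mk w)).sg r' i' ∧
        (phi k (FreeGroup.mk w)).tr r i = (phi k (FreeGroup.mk w)).tr r' i' := by
  induction w with
  | nil =>
    rw [phi_nil]
    refine ⟨by simp, fun r r' i i' _ => ⟨rfl, rfl⟩⟩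
  | cons a w ih =>
    obtain ⟨h1, h2⟩ := ih
    rw [phi_cons]
    have hl : |(lt k a).sh| ≤ 1 ∧ ∀ (r r' : Idx k) (i i' : ℤ), (On k r.1 i ↔ On k r'.1 i') →
        (lt k a).sg r i = (lt k a).sg r' i' ∧ (lt k a).tr r i = (lt k a).tr r' i' := by
      obtain ⟨x, b⟩ := a
      rw [lt_eq]
      fin_cases x
      · cases b
        · simp [gens, gE]
        · simp [gens, gE]
      · cases b
        · refine ⟨by simp [gens, gA], fun r r' i i' hw => ?_⟩
          simp only [gens, gA]
          by_cases h : On k r.1 i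
          · simp [chi2, h, hw.1 h]
          · have h' : ¬ On k r'.1 i' := fun h' => h (hw.2 h')
            simp [chi2, h, h']
        · refine ⟨by simp [gens, gA], fun r r' i i' hw => ?_⟩
          simp only [gens, gA]
          by_cases h : On k r.1 i
          · simp [chi2, h, hw.1 h]
          · have h' : ¬ On k r'.1 i' := fun h' => h (hw.2 h')
            simp [chi2, h, h']
      · cases b
        · simp [gens, gT]
        · simp [gens, gT]
    rw [abs_le] at h1
    have hl1 := hl.1
    rw [abs_le] at hl1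
    refine ⟨?_, ?_⟩
    · rw [Aff.mul_sh, abs_le]
      simp only [List.length_cons]
      push_cast
      constructor <;> linarith [hl1.1, hl1.2, h1.1, h1.2]
    · intro r r' i i' hw
      simp only [List.length_cons] at hw
      obtain ⟨e1, e2⟩ := h2 r r' i i' (fun d hd => hw d (by push_cast; linarith))
      obtain ⟨e3, e4⟩ := hl.2 r r' (i + (phi k (FreeGroup.mk w)).sh)
        (i' + (phi k (FreeGroup.mk w)).sh) (hw _ (by
          rw [abs_le]; push_cast; constructor <;> linarith [h1.1, h1.2]))
      simp only [Aff.mul_sg, Aff.mul_tr]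
      rw [e1, e2, e3, e4]
      exact ⟨rfl, rfl⟩

lemma sgn_eq_one : ∀ x : ZMod 2, sgn x = 1 → x = 0 := by decide

/-- triviality is enumerable -/
lemma triv_iff (hk : Function.Injective k) (w : List (Fin 3 × Bool)) :
    (∃ s, chk k w s) ↔ phi k (FreeGroup.mk w) = 1 := by
  constructor
  · rintro ⟨s, hs, hc⟩
    -- triviality at a checked position
    have hpos : ∀ (m : Idx k) (i : ℤ), m.1 ≤ s → -(w.length : ℤ) ≤ i →
        i ≤ (w.length : ℤ) + D s + 1 → (phi k (FreeGroup.mk w)).sh = 0 ∧
        (phi k (FreeGroup.mk w)).sg m i = 0 ∧ (phi k (FreeGroup.mk w)).tr m i = 0 := by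
      rintro ⟨m, hm⟩ i hms hi1 hi2
      simp only at hms
      have hpre : m = 0 ∨ PreB k m s := by
        rcases hm with rfl | ⟨r, rfl, hr⟩
        · exact Or.inl rfl
        · right
          rw [PreB_iff]
          exact ⟨by omega, fun u hu _ => hr u hu⟩
      obtain ⟨q, hq⟩ : ∃ q : ℕ, (q : ℤ) = i + 2 * w.length :=
        ⟨(i + 2 * w.length).toNat, Int.toNat_of_nonneg (by omega)⟩
      have hc' := hc m (by omega) hpre q (by omega) (by omega)
      obtain ⟨a1, a2⟩ := hc' 0 (by omega)
      obtain ⟨b1, b2⟩ := hc' 1 (by omega)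
      obtain ⟨c1, _, c3⟩ := sim_spec ⟨m, hm⟩ (2 * w.length) w q 0 (by omega)
      obtain ⟨_, _, d3⟩ := sim_spec ⟨m, hm⟩ (2 * w.length) w q 1 (by omega)
      simp only at c1 c3 d3
      have hqi : (q : ℤ) - ((2 * w.length : ℕ) : ℤ) = i := by push_cast; linarith
      rw [hqi] at c3 d3
      have h0 : (((sim k m (2 * w.length) w (q, 0)).2 : ℕ) : ZMod 3) = 0 := by
        rw [← ZMod.natCast_mod, a2]; simp
      have h1 : (((sim k m (2 * w.length) w (q, 1)).2 : ℕ) : ZMod 3) = 1 := by
        rw [← ZMod.natCast_mod, b2]; simp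
      rw [h0] at c3
      rw [h1] at d3
      rw [a1] at c1
      have htr : (phi k (FreeGroup.mk w)).tr ⟨m, hm⟩ i = 0 := by
        simpa using c3.symm
      rw [htr] at d3
      refine ⟨by linarith, sgn_eq_one _ (by simpa using d3.symm), htr⟩
    have hD : (0 : ℤ) < (D s : ℤ) := by exact_mod_cast D_pos s
    have hl0 : (0 : ℤ) ≤ (w.length : ℤ) := by positivity
    have hloc := (phi_local (k := k) w).2
    apply Aff.ext'
    · exact (hpos ⟨0, Or.inl rfl⟩ 0 (by simp) (by simp) (by linarith)).1
    · intro r i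
      by_cases hw : ∀ d : ℤ, |d| ≤ w.length → ¬ On k r.1 (i + d)
      · rw [(hloc r ⟨0, Or.inl rfl⟩ i (w.length + 1) ?_).1]
        · exact (hpos ⟨0, Or.inl rfl⟩ _ (by simp) (by linarith) (by linarith)).2.1
        · intro d hd
          have h1 := hw d hd
          rw [abs_le] at hd
          simp only [h1, on_zero_iff, false_iff]
          omega
      · push Not at hw
        obtain ⟨d0, hd0, hon⟩ := hw
        rw [abs_le] at hd0
        obtain ⟨m, c, hmL, hrow, hc, heq⟩ :=
          cluster (k := k) (L := 2 * w.length + 1) (by omega) r.1 _ hon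
        have hr := on_mem_range _ _ hc
        have hLs : (Len m : ℤ) ≤ (D s : ℤ) := by
          have : Len m ≤ Len (s + 1) := Len_mono (by omega)
          exact_mod_cast this
        push_cast at heq
        rw [(hloc r ⟨m, hrow r.2⟩ i (i - c) ?_).1]
        · exact (hpos ⟨m, hrow r.2⟩ _ (by simp only; omega) (by linarith) (by linarith)).2.1
        · intro d hd
          rw [abs_le] at hd
          rw [heq _ (by linarith) (by linarith)]
          rw [show i + d - c = i - c + d by ring]
    · intro r i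
      by_cases hw : ∀ d : ℤ, |d| ≤ w.length → ¬ On k r.1 (i + d)
      · rw [(hloc r ⟨0, Or.inl rfl⟩ i (w.length + 1) ?_).2]
        · exact (hpos ⟨0, Or.inl rfl⟩ _ (by simp) (by linarith) (by linarith)).2.2
        · intro d hd
          have h1 := hw d hd
          rw [abs_le] at hd
          simp only [h1, on_zero_iff, false_iff]
          omega
      · push Not at hw
        obtain ⟨d0, hd0, hon⟩ := hw
        rw [abs_le] at hd0
        obtain ⟨m, c, hmL, hrow, hc, heq⟩ :=
          cluster (k := k) (L := 2 * w.length + 1) (by omega) r.1 _ hon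
        have hr := on_mem_range _ _ hc
        have hLs : (Len m : ℤ) ≤ (D s : ℤ) := by
          have : Len m ≤ Len (s + 1) := Len_mono (by omega)
          exact_mod_cast this
        push_cast at heq
        rw [(hloc r ⟨m, hrow r.2⟩ i (i - c) ?_).2]
        · exact (hpos ⟨m, hrow r.2⟩ _ (by simp only; omega) (by linarith) (by linarith)).2.2
        · intro d hd
          rw [abs_le] at hd
          rw [heq _ (by linarith) (by linarith)]
          rw [show i + d - c = i - c + d by ring]
  · intro h
    obtain ⟨s, hs, hT, _⟩ := exists_true hk 0 (2 * w.length + 1)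
    refine ⟨s, hs, ?_⟩
    intro m hm hpre q hq hq2 v hv
    have hrow : Row k m := by
      rcases hpre with rfl | hpre
      · exact Or.inl rfl
      · obtain ⟨r, rfl⟩ : ∃ r, m = r + 1 := ⟨m - 1, by have := hpre.1; omega⟩
        rw [PreB_iff] at hpre
        exact Pc.row (Or.inr (Or.inr ⟨rfl, r, rfl, hpre⟩)) hT
    obtain ⟨c1, _, c3⟩ := sim_spec ⟨m, hrow⟩ (2 * w.length) w q v hq2
    rw [h] at c1 c3
    simp only [Aff.one_sh, add_zero, Aff.one_sg, Aff.one_tr, sgn_zero, one_mul] at c1 c3
    refine ⟨by exact_mod_cast c1, ?_⟩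
    have h1 := (ZMod.natCast_eq_natCast_iff' _ _ _).1 c3
    omega

/-- the set of relators is recursively enumerable -/
lemma rel_re {k : ℕ → ℕ} (hk : Function.Injective k) (hp : Primrec k) :
    REPred (fun w : List (Fin 3 × Bool) => FreeGroup.mk w ∈ Rel k) :=
  (re_of_exists (chk_primrec hp)).of_eq fun w => triv_iff hk w

end Pool.Agent.MaxN
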