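import Pool.Agent.MP_8260ef_al.Max
import Pool.Agent.MP_8260ef_al.Sim

set_option autoImplicit false

open scoped commutatorElement

namespace Pool.Agent.MaxN

/-- conjugated generator as a list -/
def xl (s : ℕ) (b : Bool) : List (Fin 3 × Bool) :=
  List.replicate (D s) (2, false) ++ ([(1, b)] ++ List.replicate (D s) (2, true))

/-- the test word as a list -/
def twl (s : ℕ) : List (Fin 3 × Bool) :=
  [(1, true)] ++ (xl s true ++ ([(0, true)] ++ (xl s false ++ ([(0, false)] ++ ([(1, false)] ++
    ([(0, true)] ++ (xl s true ++ ([(0, false)] ++ xl s false))))))))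

lemma mk_replicate_true (x : Fin 3) (n : ℕ) :
    FreeGroup.mk (List.replicate n (x, true)) = FreeGroup.of x ^ n := by
  induction n with
  | zero => simp [FreeGroup.one_eq_mk]
  | succ n ih =>
    rw [List.replicate_succ, ← List.singleton_append, ← FreeGroup.mul_mk, ih, pow_succ']
    rfl

lemma mk_replicate_false (x : Fin 3) (n : ℕ) :
    FreeGroup.mk (List.replicate n (x, false)) = (FreeGroup.of x)⁻¹ ^ n := by
  induction n with
  | zero => simp [FreeGroup.one_eq_mk]
  | succ n ih =>
    rw [List.replicate_succ, ← List.singleton_append, ← FreeGroup.mul_mk, ih, pow_succ']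
    rfl

lemma mk_twl (s : ℕ) : FreeGroup.mk (twl s) = tw s := by
  have h1 : ∀ x : Fin 3, FreeGroup.mk [(x, true)] = FreeGroup.of x := fun _ => rfl
  have h2 : ∀ x : Fin 3, FreeGroup.mk [(x, false)] = (FreeGroup.of x)⁻¹ := fun _ => rfl
  have hX : FreeGroup.mk (xl s true) =
      (FreeGroup.of 2) ^ (-(D s : ℤ)) * FreeGroup.of 1 * (FreeGroup.of 2) ^ (D s : ℤ) := by
    unfold xl
    rw [← FreeGroup.mul_mk, ← FreeGroup.mul_mk, mk_replicate_true, mk_replicate_false, h1,
      zpow_neg, zpow_natCast, inv_pow, mul_assoc]
  have hX' : FreeGroup.mk (xl s false) =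
      ((FreeGroup.of 2) ^ (-(D s : ℤ)) * FreeGroup.of 1 * (FreeGroup.of 2) ^ (D s : ℤ))⁻¹ := by
    unfold xl
    rw [← FreeGroup.mul_mk, ← FreeGroup.mul_mk, mk_replicate_true, mk_replicate_false, h2,
      zpow_neg, zpow_natCast, inv_pow]
    group
  unfold twl
  simp only [← FreeGroup.mul_mk, h1, h2, hX, hX']
  unfold tw
  rw [commutatorElement_def, commutatorElement_def]
  generalize (FreeGroup.of 2 : FreeGroup (Fin 3)) ^ (-(D s : ℤ)) * FreeGroup.of 1 *
    (FreeGroup.of 2) ^ (D s : ℤ) = Y
  group

lemma replicate_primrec {α : Type} [Primcodable α] (c : α) :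
    Primrec (fun n : ℕ => List.replicate n c) := by
  have h : Primrec (fun n : ℕ => (List.range n).map (fun _ => c)) :=
    Primrec.list_map Primrec.list_range (Primrec₂.const c)
  refine h.of_eq fun n => ?_
  simp

lemma xl_primrec (b : Bool) : Primrec (fun s => xl s b) := by
  unfold xl
  exact Primrec.list_append.comp ((replicate_primrec _).comp D_primrec)
    (Primrec.list_append.comp (Primrec.const _) ((replicate_primrec _).comp D_primrec))

lemma twl_primrec : Primrec twl := by
  unfold twl
  exact Primrec.list_append.comp (Primrec.const _) (Primrec.list_append.comp (xl_primrec _)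
    (Primrec.list_append.comp (Primrec.const _) (Primrec.list_append.comp (xl_primrec _)
    (Primrec.list_append.comp (Primrec.const _) (Primrec.list_append.comp (Primrec.const _)
    (Primrec.list_append.comp (Primrec.const _) (Primrec.list_append.comp (xl_primrec _)
    (Primrec.list_append.comp (Primrec.const _) (xl_primrec _)))))))))

lemma wp_not_computable : ¬ ComputablePred (fun w : List (Fin 3 × Bool) =>
    FreeGroup.mk w ∈ Subgroup.normalClosure (Rel kf)) := by
  intro h
  apply Tr_not_computable
  rw [normalClosure_Rel] at h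
  have h1 : ComputablePred (fun s : ℕ => FreeGroup.mk (twl s) ∈ (phi kf).ker) := by
    classical
    exact Computable.computablePred (h.decide.comp twl_primrec.to_comp)
  refine h1.not.of_eq fun s => ?_
  rw [mk_twl]
  have h2 := tw_iff kf s
  rw [Rel_eq] at h2
  have h3 : tw s ∈ (phi kf).ker ↔ ¬ Tr kf s := h2
  rw [h3, not_not]

end Pool.Agent.MaxN
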